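import Pool.Agent.R939.BC.Comp

/-!
# Factorizations into two factors of half degree: the local computation
-/

set_option autoImplicit false
set_option linter.all false

open Polynomial

namespace Pool.Agent.T6.H14.EV

open Pool.Agent.R939.HI Pool.Agent.R939.EI Pool.Agent.R939.BC

section coeffs

variable {A : Type} [CommRing A]

/-- The monic polynomial of degree `n` with the given lower coefficients. -/
noncomputable def monP {n : ℕ} (y : Fin n → A) : A[X] := X ^ n + ∑ i : Fin n, C (y i) * X ^ (i : ℕ)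

theorem monP_low {n : ℕ} (y : Fin n → A) : (∑ i : Fin n, C (y i) * X ^ (i : ℕ) : A[X]).degree < n := by
  refine (degree_sum_le _ _).trans_lt ?_
  refine (Finset.sup_lt_iff (WithBot.bot_lt_coe n)).2 ?_
  intro i _
  exact (degree_C_mul_X_pow_le _ _).trans_lt (WithBot.coe_lt_coe.2 i.2)

theorem monP_monic {n : ℕ} (y : Fin n → A) : (monP y).Monic :=
  monic_X_pow_add (monP_low y)

theorem monP_natDegree [Nontrivial A] {n : ℕ} (y : Fin n → A) : (monP y).natDegree = n := by
  have h1 : (monP y).degree = n := by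
    unfold monP
    rw [degree_add_eq_left_of_degree_lt, degree_X_pow]
    rw [degree_X_pow]
    exact monP_low y
  exact natDegree_eq_of_degree_eq_some h1

theorem monP_map {B : Type} [CommRing B] (f : A →+* B) {n : ℕ} (y : Fin n → A) :
    (monP y).map f = monP fun i => f (y i) := by
  unfold monP
  rw [Polynomial.map_add, Polynomial.map_pow, map_X, Polynomial.map_sum]
  congr 1
  refine Finset.sum_congr rfl fun j _ => ?_
  rw [Polynomial.map_mul, Polynomial.map_pow, map_C, map_X]

theorem monP_coeff {n : ℕ} (y : Fin n → A) (i : Fin n) : (monP y).coeff i = y i := by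
  unfold monP
  rw [coeff_add, coeff_X_pow, if_neg (by have := i.2; omega), zero_add, finset_sum_coeff,
    Finset.sum_eq_single i]
  · simp
  · intro j _ hj
    rw [coeff_C_mul, coeff_X_pow, if_neg, mul_zero]
    intro h0
    exact hj (Fin.ext h0.symm)
  · intro h0
    exact absurd (Finset.mem_univ _) h0

theorem eq_monP {n : ℕ} {R : A[X]} (hR : R.Monic) (hd : R.natDegree = n) :
    R = monP fun i : Fin n => R.coeff i := by
  ext m
  rcases lt_trichotomy m n with h | h | h
  · exact (monP_coeff (fun i : Fin n => R.coeff i) ⟨m, h⟩).symm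
  · subst h
    rw [← hd, hR.coeff_natDegree, hd]
    unfold monP
    rw [coeff_add, coeff_X_pow, if_pos rfl]
    have h1 : (∑ i : Fin m, C (R.coeff i) * X ^ (i : ℕ) : A[X]).coeff m = 0 :=
      coeff_eq_zero_of_degree_lt (monP_low _)
    rw [h1, add_zero]
  · rw [coeff_eq_zero_of_natDegree_lt (by omega)]
    unfold monP
    rw [coeff_add, coeff_X_pow, if_neg (by omega), zero_add]
    exact (coeff_eq_zero_of_degree_lt ((monP_low _).trans (by exact_mod_cast h))).symm

end coeffs

section core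

variable {A : Type} [CommRing A] [IsDomain A] [IsDiscreteValuationRing A]

/-- the crucial step -/
theorem core {π : A} (hπ : Irreducible π) {p : A} (hπp : π ∣ p) (hπn : ¬ π ^ 3 ∣ p) {n : ℕ}
    (hn : 2 ≤ n) {f R S : A[X]} (hR : R.Monic) (hS : S.Monic) (hRd : R.natDegree = n)
    (hSd : S.natDegree = n) (hf : f = R * S) {w : A} (hw : IsUnit w)
    (h0 : f.coeff 0 = p * w) (h1 : p ^ 2 ∣ f.coeff (n - 1))
    (hmod : f.map (Ideal.Quotient.mk (Ideal.span {π})) = X ^ (2 * n - 1) * (X - C 1))
    (hdv : (X - C 1) ∣ S.map (Ideal.Quotient.mk (Ideal.span {π}))) : False := by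
  haveI hprime : (Ideal.span {π}).IsPrime := (Ideal.span_singleton_prime hπ.ne_zero).2 hπ.prime
  set q := Ideal.Quotient.mk (Ideal.span {π}) with hq
  have hq0 : ∀ x : A, q x = 0 ↔ π ∣ x := by
    intro x
    rw [hq, Ideal.Quotient.eq_zero_iff_mem, Ideal.mem_span_singleton]
  obtain ⟨S', hS'⟩ := hdv
  have hmX : (X - C 1 : (A ⧸ Ideal.span {π})[X]).Monic := monic_X_sub_C 1
  have hSm := hS.map q
  have hRm := hR.map q
  have hS'm : S'.Monic := by
    rw [hS'] at hSm
    exact hmX.of_mul_monic_left hSm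
  have hprod : R.map q * S' = X ^ (2 * n - 1) := by
    rw [hf, Polynomial.map_mul, hS'] at hmod
    have h2 : (X - C 1 : (A ⧸ Ideal.span {π})[X]) ≠ 0 := hmX.ne_zero
    apply mul_right_cancel₀ h2
    rw [← hmod]
    ring
  have hpr : Prime (X : (A ⧸ Ideal.span {π})[X]) := prime_X
  have hRX : R.map q = X ^ n := by
    obtain ⟨i, -, hi⟩ := (dvd_prime_pow hpr _).1 (Dvd.intro _ hprod)
    have h3 := eq_of_monic_of_associated hRm (monic_X_pow i) hi
    have h4 : (R.map q).natDegree = n := by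
      rw [hR.natDegree_map, hRd]
    rw [h3, natDegree_X_pow] at h4
    rw [h3, h4]
  have hSX : S' = X ^ (n - 1) := by
    obtain ⟨i, -, hi⟩ := (dvd_prime_pow hpr _).1 (Dvd.intro_left _ hprod)
    have h3 := eq_of_monic_of_associated hS'm (monic_X_pow i) hi
    have h4 : (S.map q).natDegree = n := by
      rw [hS.natDegree_map, hSd]
    rw [hS', hmX.natDegree_mul hS'm, natDegree_X_sub_C, h3, natDegree_X_pow] at h4
    rw [h3]
    congr 1
    omega
  have hRc : ∀ j, j < n → π ∣ R.coeff j := by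
    intro j hj
    rw [← hq0, ← coeff_map, hRX, coeff_X_pow, if_neg (by omega)]
  have hSc : ∀ j, j < n - 1 → π ∣ S.coeff j := by
    intro j hj
    rw [← hq0, ← coeff_map, hS', hSX, sub_mul, C_1, one_mul, ← pow_succ', coeff_sub, coeff_X_pow,
      coeff_X_pow, if_neg (by omega), if_neg (by omega), sub_zero]
  have hSu : IsUnit (S.coeff (n - 1)) := by
    have h3 : q (S.coeff (n - 1)) = -1 := by
      rw [← coeff_map, hS', hSX, sub_mul, C_1, one_mul, ← pow_succ', coeff_sub, coeff_X_pow,
        coeff_X_pow, if_neg (by omega), if_pos rfl, zero_sub]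
    have h4 : π ∣ S.coeff (n - 1) + 1 := by
      rw [← hq0, map_add, h3, map_one]
      ring
    have h5 := unit_add hπ (a := (-1 : A)) isUnit_one.neg h4
    rwa [show (-1 : A) + (S.coeff (n - 1) + 1) = S.coeff (n - 1) by ring] at h5
  have h2 : π ^ 2 ∣ f.coeff (n - 1) := (pow_dvd_pow_of_dvd hπp 2).trans h1
  have hR0 : π ^ 2 ∣ R.coeff 0 := by
    rw [hf, coeff_mul] at h2
    have hmem : ((0, n - 1) : ℕ × ℕ) ∈ Finset.HasAntidiagonal.antidiagonal (n - 1) := by
      rw [Finset.HasAntidiagonal.mem_antidiagonal]; ring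
    rw [← Finset.add_sum_erase _ _ hmem] at h2
    have h3 : π ^ 2 ∣ ∑ x ∈ (Finset.HasAntidiagonal.antidiagonal (n - 1)).erase (0, n - 1),
        R.coeff x.1 * S.coeff x.2 := by
      refine Finset.dvd_sum ?_
      rintro ⟨i, j⟩ hij
      rw [Finset.mem_erase, Finset.HasAntidiagonal.mem_antidiagonal] at hij
      obtain ⟨h5, h6⟩ := hij
      simp only at h6
      have hi : i ≠ 0 := by
        rintro rfl
        apply h5
        rw [zero_add] at h6
        rw [h6]
      rw [pow_two]
      exact mul_dvd_mul (hRc i (by omega)) (hSc j (by omega))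
    have h4 := (dvd_add_left h3).1 h2
    exact hSu.dvd_mul_right.1 h4
  have h3 : π ^ 3 ∣ f.coeff 0 := by
    rw [hf, mul_coeff_zero, pow_succ]
    exact mul_dvd_mul hR0 (hSc 0 (by omega))
  rw [h0, hw.dvd_mul_right] at h3
  exact hπn h3

variable {K' : Type} [Field K'] [Algebra A K'] [IsFractionRing A K']

/-- A monic factor of a monic integral polynomial is integral. -/
theorem int_factor {f : A[X]} (hf : f.Monic) {R : K'[X]} (hR : R.Monic)
    (hd : R ∣ f.map (algebraMap A K')) : ∃ R₀ : A[X], R₀.Monic ∧ R₀.natDegree = R.natDegree ∧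
      R₀.map (algebraMap A K') = R := by
  have h1 : ∀ i, ∃ y : A, algebraMap A K' y = R.coeff i := fun i =>
    IsIntegrallyClosed.isIntegral_iff.1 (isIntegral_coeff_of_dvd f R hf hR hd i)
  have h2 : R ∈ Polynomial.lifts (algebraMap A K') := by
    rw [Polynomial.lifts_iff_coeff_lifts]
    intro n
    obtain ⟨y, hy⟩ := h1 n
    exact ⟨y, hy⟩
  obtain ⟨R₀, h3, h4, h5⟩ := lifts_and_natDegree_eq_and_monic h2 hR
  exact ⟨R₀, h5, h4, h3⟩

/-- **The local computation.** -/
theorem no_split {π : A} (hπ : Irreducible π) {p : A} (hπp : π ∣ p) (hπn : ¬ π ^ 3 ∣ p) {n : ℕ}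
    (hn : 2 ≤ n) {r : A} {b : Fin (2 * n + 1) → A}
    (hb : ∀ i : Fin (2 * n + 1), p ^ 2 ∣
      b i - (X ^ (2 * n) - X ^ (2 * n - 1) + C (r + p) : A[X]).coeff i)
    {R S : K'[X]} (hR : R.Monic) (hS : S.Monic) (hRd : R.natDegree = n) (hSd : S.natDegree = n)
    (h : (polA b).map (algebraMap A K') - C (algebraMap A K' r) =
      C (algebraMap A K' (b (Fin.last (2 * n)))) * (R * S)) : False := by
  have hinj : Function.Injective (algebraMap A K') := IsFractionRing.injective A K'
  have hp0 : p ≠ 0 := fun h0 => hπn (by rw [h0]; exact dvd_zero _)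
  have hπp2 : π ∣ p ^ 2 := hπp.trans (dvd_pow_self _ two_ne_zero)
  have hl : ((Fin.last (2 * n) : Fin (2 * n + 1)) : ℕ) = 2 * n := Fin.val_last _
  have hu : IsUnit (b (Fin.last (2 * n))) := by
    have h1 := hb (Fin.last (2 * n))
    rw [hl, coeff_add, coeff_sub, coeff_X_pow, if_pos rfl, coeff_X_pow, if_neg (by omega), coeff_C,
      if_neg (by omega), add_zero, sub_zero] at h1
    have h2 := unit_add hπ isUnit_one (hπp2.trans h1)
    rwa [add_sub_cancel] at h2
  obtain ⟨u, hu⟩ := hu
  have huK : algebraMap A K' (↑u⁻¹ : A) * algebraMap A K' (b (Fin.last (2 * n))) = 1 := by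
    rw [← map_mul, ← hu, Units.inv_mul, map_one]
  set f : A[X] := C (↑u⁻¹ : A) * (polA b - C r) with hf
  have hfm : f.map (algebraMap A K') = R * S := by
    rw [hf, Polynomial.map_mul, Polynomial.map_sub, map_C, map_C, h, ← mul_assoc, ← C_mul, huK, C_1,
      one_mul]
  have hfmonic : f.Monic := by
    apply monic_of_injective hinj
    rw [hfm]
    exact hR.mul hS
  obtain ⟨R₀, hR₀, hR₀d, hR₀e⟩ := int_factor (K' := K') hfmonic hR ⟨S, hfm⟩
  obtain ⟨S₀, hS₀, hS₀d, hS₀e⟩ := int_factor (K' := K') hfmonic hS ⟨R, by rw [hfm, mul_comm]⟩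
  have hfRS : f = R₀ * S₀ := by
    apply Polynomial.map_injective _ hinj
    rw [hfm, Polynomial.map_mul, hR₀e, hS₀e]
  rw [hRd] at hR₀d
  rw [hSd] at hS₀d
  -- the coefficients of `f`
  have hco : ∀ j : Fin (2 * n + 1), (polA b).coeff j = b j := by
    intro j
    unfold polA
    rw [finset_sum_coeff, Finset.sum_eq_single j]
    · simp
    · intro i _ hi
      rw [coeff_C_mul, coeff_X_pow, if_neg, mul_zero]
      intro h0
      exact hi (Fin.ext h0.symm)
    · intro h0
      exact absurd (Finset.mem_univ _) h0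
  have hfc : ∀ j : ℕ, j < 2 * n + 1 → p ^ 2 ∣ f.coeff j -
      (↑u⁻¹ : A) * (X ^ (2 * n) - X ^ (2 * n - 1) + C p : A[X]).coeff j := by
    intro j hj
    have h1 := hb ⟨j, hj⟩
    have h2 := hco ⟨j, hj⟩
    simp only at h1 h2
    rw [hf, coeff_C_mul, coeff_sub, h2, ← mul_sub]
    refine Dvd.dvd.mul_left ?_ _
    have e : b ⟨j, hj⟩ - (C r : A[X]).coeff j -
        (X ^ (2 * n) - X ^ (2 * n - 1) + C p : A[X]).coeff j =
        b ⟨j, hj⟩ - (X ^ (2 * n) - X ^ (2 * n - 1) + C (r + p) : A[X]).coeff j := by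
      simp only [coeff_add, coeff_sub, coeff_C]
      split_ifs <;> ring
    rw [e]
    exact h1
  have h0 : ∃ w : A, IsUnit w ∧ f.coeff 0 = p * w := by
    obtain ⟨s, hs⟩ := hfc 0 (by omega)
    rw [coeff_add, coeff_sub, coeff_X_pow, if_neg (by omega), coeff_X_pow, if_neg (by omega),
      coeff_C, if_pos rfl, sub_zero, zero_add] at hs
    refine ⟨↑u⁻¹ + p * s, unit_add hπ (Units.isUnit _) (hπp.mul_right _), ?_⟩
    linear_combination hs
  obtain ⟨w, hw, h0⟩ := h0
  have h1 : p ^ 2 ∣ f.coeff (n - 1) := by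
    have h2 := hfc (n - 1) (by omega)
    rwa [coeff_add, coeff_sub, coeff_X_pow, if_neg (by omega), coeff_X_pow, if_neg (by omega),
      coeff_C, if_neg (by omega), sub_zero, add_zero, mul_zero, sub_zero] at h2
  set q := Ideal.Quotient.mk (Ideal.span {π}) with hq
  have hq0 : ∀ x : A, q x = 0 ↔ π ∣ x := by
    intro x
    rw [hq, Ideal.Quotient.eq_zero_iff_mem, Ideal.mem_span_singleton]
  haveI hprime : (Ideal.span {π}).IsPrime := (Ideal.span_singleton_prime hπ.ne_zero).2 hπ.prime
  have hu1 : q (↑u⁻¹ : A) = 1 := by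
    have h2 := hfc (2 * n) (by omega)
    have h3 : f.coeff (2 * n) = 1 := by
      have h4 : f.natDegree = 2 * n := by
        rw [hfRS, hR₀.natDegree_mul hS₀, hR₀d, hS₀d]
        ring
      rw [← h4]
      exact hfmonic.coeff_natDegree
    rw [h3, coeff_add, coeff_sub, coeff_X_pow, if_pos rfl, coeff_X_pow, if_neg (by omega),
      coeff_C, if_neg (by omega), sub_zero, add_zero, mul_one] at h2
    have h5 := (hq0 _).2 (hπp2.trans h2)
    rw [map_sub, map_one] at h5
    exact (sub_eq_zero.1 h5).symm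
  have hmod : f.map q = X ^ (2 * n - 1) * (X - C 1) := by
    have e : (X ^ (2 * n - 1) * (X - C 1) : (A ⧸ Ideal.span {π})[X]) =
        X ^ (2 * n) - X ^ (2 * n - 1) := by
      rw [C_1, mul_sub, mul_one, ← pow_succ]
      congr 2
      omega
    rw [e]
    ext j
    rw [coeff_map]
    by_cases hj : j < 2 * n + 1
    · have h5 := (hq0 _).2 (hπp2.trans (hfc j hj))
      rw [map_sub, map_mul, hu1, one_mul, sub_eq_zero] at h5
      rw [h5, coeff_add, coeff_sub, coeff_sub, map_add, map_sub, coeff_X_pow, coeff_X_pow,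
        coeff_X_pow, coeff_X_pow, coeff_C]
      have hqp : q p = 0 := (hq0 _).2 hπp
      have a1 : q (if j = 0 then p else 0) = 0 := by
        split_ifs
        · exact hqp
        · exact map_zero q
      rw [a1, add_zero]
      split_ifs <;> simp
    · have h4 : f.natDegree = 2 * n := by
        rw [hfRS, hR₀.natDegree_mul hS₀, hR₀d, hS₀d]
        ring
      rw [coeff_eq_zero_of_natDegree_lt (by omega), coeff_sub, coeff_X_pow, coeff_X_pow,
        if_neg (by omega), if_neg (by omega), map_zero, sub_zero]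
  have hp1 : Prime (X - C 1 : (A ⧸ Ideal.span {π})[X]) := prime_X_sub_C 1
  have hdv : (X - C 1 : (A ⧸ Ideal.span {π})[X]) ∣ R₀.map q * S₀.map q := by
    rw [← Polynomial.map_mul, ← hfRS, hmod]
    exact dvd_mul_left _ _
  rcases hp1.dvd_or_dvd hdv with h2 | h2
  · exact core hπ hπp hπn hn hS₀ hR₀ hS₀d hR₀d (by rw [hfRS, mul_comm]) hw h0 h1 hmod h2
  · exact core hπ hπp hπn hn hR₀ hS₀ hR₀d hS₀d hfRS hw h0 h1 hmod h2

end core

section alg

/-- The coefficients of a monic factor are algebraic. -/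
theorem isAlg_factor {E W : Type} [Field E] [Field W] [Algebra E W] {f : W[X]}
    (hf : f ≠ 0) (hc : ∀ n, IsAlgebraic E (f.coeff n)) {R : W[X]} (hR : R.Monic) (hd : R ∣ f)
    (i : ℕ) : IsAlgebraic E (R.coeff i) := by
  let E' := algebraicClosure E W
  have hl0 : f.leadingCoeff ≠ 0 := leadingCoeff_ne_zero.2 hf
  set f1 : W[X] := C f.leadingCoeff⁻¹ * f with hf1
  have hf1m : f1.Monic := by
    rw [hf1, Monic, leadingCoeff_mul, leadingCoeff_C, inv_mul_cancel₀ hl0]
  have hl : f1 ∈ Polynomial.lifts (algebraMap E' W) := by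
    rw [Polynomial.lifts_iff_coeff_lifts]
    intro n
    refine ⟨⟨f1.coeff n, mem_algebraicClosure_iff.2 ?_⟩, rfl⟩
    rw [hf1, coeff_C_mul]
    exact (hc _).inv.mul (hc n)
  obtain ⟨g, hg, -, hgm⟩ := lifts_and_natDegree_eq_and_monic hl hf1m
  have h1 : IsIntegral E' (R.coeff i) := by
    refine isIntegral_coeff_of_dvd g R hgm hR ?_ i
    rw [hg, hf1]
    exact hd.mul_left _
  have h2 : IsAlgebraic E' (R.coeff i) := h1.isAlgebraic
  exact h2.restrictScalars E

end alg

end Pool.Agent.T6.H14.EV
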