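import Pool.Agent.T6.H14.EV.Stab

/-!
# New square roots and factorizations over quadratic extensions
-/

set_option autoImplicit false
set_option linter.all false

open Polynomial
open scoped Classical

namespace Pool.Agent.T6.H14.EV

open Pool.Agent.R939.EI

section

variable {k : Type} [Field k]

/-- If `π(h)` is irreducible and its residue field contains a new square root, then `h - β` is, over a
quadratic extension `M` of the field `L = k(β)`, `π(β) = 0`, a product of two factors of the same
degree. -/
theorem quad_factor {π h : k[X]} [hπ : Fact (Irreducible π)] (hi : Irreducible (π.comp h))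
    (hh : 0 < h.natDegree) (hn : ¬ NoQ π h) :
    ∃ (M : Type) (_ : Field M) (_ : Algebra (AdjoinRoot π) M),
      Module.finrank (AdjoinRoot π) M = 2 ∧ ∃ (n : ℕ) (R S : M[X]), h.natDegree = 2 * n ∧
        R.Monic ∧ S.Monic ∧ R.natDegree = n ∧ S.natDegree = n ∧
        h.map ((algebraMap (AdjoinRoot π) M).comp (algebraMap k (AdjoinRoot π))) -
          C (algebraMap (AdjoinRoot π) M (AdjoinRoot.root π)) =
          C (algebraMap (AdjoinRoot π) M (algebraMap k (AdjoinRoot π) h.leadingCoeff)) * (R * S) := by
  unfold NoQ at hn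
  push Not at hn
  obtain ⟨g, r, hgr, hns⟩ := hn
  haveI : Fact (Irreducible (π.comp h)) := ⟨hi⟩
  let L := AdjoinRoot π
  let K := AdjoinRoot (π.comp h)
  haveI : FiniteDimensional k L := (AdjoinRoot.powerBasis hπ.out.ne_zero).finite
  haveI : FiniteDimensional k K := (AdjoinRoot.powerBasis hi.ne_zero).finite
  have hL : Module.finrank k L = π.natDegree := by
    rw [(AdjoinRoot.powerBasis hπ.out.ne_zero).finrank, AdjoinRoot.powerBasis_dim]
  have hK : Module.finrank k K = π.natDegree * h.natDegree := by
    rw [(AdjoinRoot.powerBasis hi.ne_zero).finrank, AdjoinRoot.powerBasis_dim, natDegree_comp]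
  set x : K := AdjoinRoot.mk (π.comp h) h with hx
  have hx0 : π.eval₂ (algebraMap k K) x = 0 := by
    have h1 : AdjoinRoot.mk (π.comp h) (π.comp h) = 0 := AdjoinRoot.mk_self
    rw [← AdjoinRoot.aeval_eq, aeval_comp, AdjoinRoot.aeval_eq] at h1
    exact h1
  let ψ : L →+* K := AdjoinRoot.lift (algebraMap k K) x hx0
  have hψr : ψ (AdjoinRoot.root π) = x := AdjoinRoot.lift_root _
  have hψk : ∀ z : k, ψ (algebraMap k L z) = algebraMap k K z := fun z => AdjoinRoot.lift_of _
  letI : Algebra L K := ψ.toAlgebra
  have hψ : ∀ z : L, algebraMap L K z = ψ z := fun z => rfl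
  haveI : IsScalarTower k L K := IsScalarTower.of_algebraMap_eq fun z => (hψk z).symm
  haveI : FiniteDimensional L K := FiniteDimensional.right k L K
  have h1 : Module.finrank k L * Module.finrank L K = Module.finrank k K :=
    Module.finrank_mul_finrank k L K
  rw [hL, hK] at h1
  have hLK : Module.finrank L K = h.natDegree :=
    Nat.eq_of_mul_eq_mul_left hπ.out.natDegree_pos h1
  -- the new square root
  set ρ : K := AdjoinRoot.mk (π.comp h) r with hρ
  set γ : L := AdjoinRoot.mk π g with hγ
  have hψg : ψ γ = AdjoinRoot.mk (π.comp h) (g.comp h) := by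
    have e1 : ψ γ = g.eval₂ (algebraMap k K) x := AdjoinRoot.lift_mk hx0 g
    have e2 : AdjoinRoot.mk (π.comp h) (g.comp h) = g.eval₂ (algebraMap k K) x := by
      rw [← AdjoinRoot.aeval_eq, aeval_comp, AdjoinRoot.aeval_eq]
      rfl
    rw [e1, e2]
  have hργ : ρ ^ 2 = algebraMap L K γ := by
    rw [hψ, hψg, hρ, ← map_pow]
    exact (AdjoinRoot.mk_eq_mk.2 hgr).symm
  have hnsq : ¬ IsSquare γ := by
    rintro ⟨s, hs⟩
    obtain ⟨s', rfl⟩ := AdjoinRoot.mk_surjective s
    apply hns s'
    rw [← AdjoinRoot.mk_eq_mk, map_pow, pow_two]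
    exact hs
  have hirr : Irreducible (X ^ 2 - C γ : L[X]) := by
    refine X_pow_sub_C_irreducible_of_prime Nat.prime_two ?_
    intro b hb
    exact hnsq ⟨b, by rw [← hb]; ring⟩
  have hmp : minpoly L ρ = X ^ 2 - C γ := by
    refine (minpoly.eq_of_irreducible_of_monic hirr ?_ (monic_X_pow_sub_C γ two_ne_zero)).symm
    rw [map_sub, map_pow, aeval_X, aeval_C, hργ, sub_self]
  let M : IntermediateField L K := IntermediateField.adjoin L {ρ}
  have hM : Module.finrank L M = 2 := by
    rw [IntermediateField.adjoin.finrank (Algebra.IsIntegral.isIntegral ρ), hmp,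
      natDegree_X_pow_sub_C]
  have h2 : Module.finrank L M * Module.finrank M K = Module.finrank L K :=
    Module.finrank_mul_finrank L M K
  set n := Module.finrank M K with hn
  rw [hM, hLK] at h2
  haveI : FiniteDimensional M K := FiniteDimensional.right L M K
  set θ : K := AdjoinRoot.root (π.comp h) with hθ
  set R : M[X] := minpoly M θ with hR
  have hint : IsIntegral M θ := Algebra.IsIntegral.isIntegral θ
  have hRm : R.Monic := minpoly.monic hint
  have htop : IntermediateField.adjoin M {θ} = ⊤ := by
    rw [eq_top_iff]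
    intro z _
    obtain ⟨f, rfl⟩ := AdjoinRoot.mk_surjective z
    have e1 : AdjoinRoot.mk (π.comp h) f = f.sum fun i c => algebraMap k K c * θ ^ i := by
      rw [← AdjoinRoot.aeval_eq, aeval_def, eval₂_eq_sum]
    rw [e1, Polynomial.sum_def]
    refine sum_mem fun i _ => ?_
    refine mul_mem ?_ (pow_mem (IntermediateField.mem_adjoin_simple_self M θ) i)
    have e2 : algebraMap k K (f.coeff i) =
        algebraMap M K (algebraMap L M (algebraMap k L (f.coeff i))) := by
      rw [← IsScalarTower.algebraMap_apply L M K, ← IsScalarTower.algebraMap_apply k L K]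
    rw [e2]
    exact (IntermediateField.adjoin M {θ}).algebraMap_mem _
  have hRd : R.natDegree = n := by
    rw [hR, ← IntermediateField.adjoin.finrank hint, htop, IntermediateField.finrank_top']
  set f1 : M[X] := h.map ((algebraMap L M).comp (algebraMap k L)) -
    C (algebraMap L M (AdjoinRoot.root π)) with hf1
  have hRf : R ∣ f1 := by
    refine minpoly.dvd M θ ?_
    rw [hf1, map_sub, aeval_C, aeval_def, eval₂_map,
      ← IsScalarTower.algebraMap_apply L M K, hψ, hψr, sub_eq_zero]
    have e1 : (algebraMap M K).comp ((algebraMap L M).comp (algebraMap k L)) = algebraMap k K := by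
      ext z
      simp only [RingHom.comp_apply]
      rw [← IsScalarTower.algebraMap_apply L M K, ← IsScalarTower.algebraMap_apply k L K]
    rw [e1, hx, ← AdjoinRoot.aeval_eq, aeval_def]
  obtain ⟨S1, hS1⟩ := hRf
  have hinj : Function.Injective ((algebraMap L M).comp (algebraMap k L)) := RingHom.injective _
  have hmd : (h.map ((algebraMap L M).comp (algebraMap k L))).natDegree = h.natDegree :=
    natDegree_map_eq_of_injective hinj _
  have hf1d : f1.natDegree = 2 * n := by
    rw [hf1, natDegree_sub_C, hmd, h2]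
  have hh0 : h.leadingCoeff ≠ 0 := leadingCoeff_ne_zero.2 (by
    rintro rfl
    rw [natDegree_zero] at hh
    exact lt_irrefl _ hh)
  set l : M := algebraMap L M (algebraMap k L h.leadingCoeff) with hl
  have hl0 : l ≠ 0 := by
    rw [hl]
    exact (_root_.map_ne_zero _).2 ((_root_.map_ne_zero _).2 hh0)
  have hf1l : f1.leadingCoeff = l := by
    rw [hf1, leadingCoeff_sub_of_degree_lt, leadingCoeff_map_of_injective hinj]
    · rfl
    · refine lt_of_le_of_lt degree_C_le ?_
      rw [← natDegree_pos_iff_degree_pos, hmd]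
      exact hh
  have hS1l : S1.leadingCoeff = l := by
    rw [← hf1l, hS1, leadingCoeff_mul, hRm.leadingCoeff, one_mul]
  have hS10 : S1 ≠ 0 := by
    rintro rfl
    rw [leadingCoeff_zero] at hS1l
    exact hl0 hS1l.symm
  refine ⟨M, inferInstance, inferInstance, hM, n, R, C l⁻¹ * S1, h2.symm, hRm, ?_, hRd, ?_, ?_⟩
  · rw [Monic, leadingCoeff_mul, leadingCoeff_C, hS1l, inv_mul_cancel₀ hl0]
  · rw [natDegree_C_mul (inv_ne_zero hl0)]
    have h3 := congrArg natDegree hS1
    rw [hf1d, hRm.natDegree_mul' hS10, hRd] at h3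
    omega
  · show f1 = C l * (R * (C l⁻¹ * S1))
    have : C l * C l⁻¹ = (1 : M[X]) := by rw [← C_mul, mul_inv_cancel₀ hl0, C_1]
    rw [hS1]
    linear_combination (-(R * S1)) * this

/-- In odd degree there are no new square roots. -/
theorem noQ_of_odd {π h : k[X]} (hπ : Irreducible π) (hi : Irreducible (π.comp h))
    (hodd : Odd h.natDegree) : NoQ π h := by
  by_contra hn
  haveI : Fact (Irreducible π) := ⟨hπ⟩
  obtain ⟨M, _, _, -, n, -, -, h2, -⟩ := quad_factor hi hodd.pos hn
  rw [h2] at hodd
  exact (Nat.not_odd_iff_even.2 (even_two_mul n)) hodd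

end

end Pool.Agent.T6.H14.EV
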