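import Pool.Agent.R939.BC.Comp3
import Pool.Agent.T6.H14.EV.Loc
import Pool.Agent.T6.H14.EV.Quad

/-!
# Almost all polynomials create no new square roots: the density
-/

set_option autoImplicit false
set_option linter.all false

open Polynomial NumberField

namespace Pool.Agent.T6.H14.EV

open Pool.Agent.R939.EI Pool.Agent.R939.HI Pool.Agent.R939.BC Pool.Agent.W275.UB
open Pool.Agent.TH115.GD Pool.Agent Pool.Agent.H927R2.RD Pool.Agent.W275.ND

section eqn

variable {O' J : Type} [CommRing O'] [Fintype J] (e : J → O') (c β : O') (n : ℕ)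

/-- a coefficient of `h` -/
noncomputable def gl (l : Fin (2 * n + 1)) : MvPolynomial (Fin (2 * n + 1) × J) O' :=
  ∑ j, MvPolynomial.C (e j) * MvPolynomial.X (l, j)

/-- the polynomial `c h - β - c h_{2n} R S` -/
noncomputable def eqP :
    Polynomial (MvPolynomial (Fin n ⊕ Fin n) (MvPolynomial (Fin (2 * n + 1) × J) O')) :=
  C (MvPolynomial.C (MvPolynomial.C c)) * polA (fun l => MvPolynomial.C (gl e n l)) -
    C (MvPolynomial.C (MvPolynomial.C β)) -
    C (MvPolynomial.C (MvPolynomial.C c)) * C (MvPolynomial.C (gl e n (Fin.last (2 * n)))) *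
      (monP (fun i : Fin n => MvPolynomial.X (Sum.inl i)) *
        monP (fun i : Fin n => MvPolynomial.X (Sum.inr i)))

theorem map_eqP {R : Type} [CommRing R] (σ : O' →+* R) (w : Fin (2 * n + 1) × J → R)
    (y : Fin n ⊕ Fin n → R) :
    (eqP e c β n).map (MvPolynomial.eval₂Hom (MvPolynomial.eval₂Hom σ w) y) =
      C (σ c) * polA (cv (fun j => σ (e j)) w) - C (σ β) -
        C (σ c) * C (cv (fun j => σ (e j)) w (Fin.last (2 * n))) *
          (monP (fun i => y (Sum.inl i)) * monP (fun i => y (Sum.inr i))) := by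
  have hgl : ∀ l, MvPolynomial.eval₂Hom σ w (gl e n l) = cv (fun j => σ (e j)) w l := by
    intro l
    simp [gl, cv]
  unfold eqP
  simp only [Polynomial.map_sub, Polynomial.map_mul, map_C, polA_map, monP_map,
    MvPolynomial.coe_eval₂Hom, MvPolynomial.eval₂_C, MvPolynomial.eval₂_X]
  simp only [← MvPolynomial.coe_eval₂Hom, hgl]

theorem eqP_iff {R : Type} [CommRing R] (σ : O' →+* R) (w : Fin (2 * n + 1) × J → R)
    (y : Fin n ⊕ Fin n → R) :
    (∀ g ∈ Set.range (eqP e c β n).coeff,
      MvPolynomial.eval₂ (MvPolynomial.eval₂Hom σ w) y g = 0) ↔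
      C (σ c) * polA (cv (fun j => σ (e j)) w) - C (σ β) =
        C (σ c) * C (cv (fun j => σ (e j)) w (Fin.last (2 * n))) *
          (monP (fun i => y (Sum.inl i)) * monP (fun i => y (Sum.inr i))) := by
  rw [← sub_eq_zero (b := C (σ c) * C (cv (fun j => σ (e j)) w (Fin.last (2 * n))) *
          (monP (fun i => y (Sum.inl i)) * monP (fun i => y (Sum.inr i)))), ← map_eqP]
  constructor
  · intro h
    ext m
    rw [coeff_map, coeff_zero]
    exact h _ ⟨m, rfl⟩
  · rintro h _ ⟨m, rfl⟩
    have h1 := congrArg (fun p : R[X] => p.coeff m) h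
    simp only [coeff_map, coeff_zero] at h1
    exact h1

end eqn

section dens

variable {O O' J J' : Type} [CommRing O] [CommRing O'] [IsDomain O'] [Fintype J] [Fintype J']

theorem dens_fac (ω : Module.Basis J ℤ O) (ω' : Module.Basis J' ℤ O') (i : O →+* O')
    (hi : Function.Injective i) [Nonempty J] (β : O') (c : ℤ) (hc : c ≠ 0) {n : ℕ} (hn : 2 ≤ n) :
    D0 {v : Fin (2 * n + 1) × J → ℤ | ∃ (K : Type) (_ : Field K) (_ : NumberField K) (σ : O' →+* K)
      (R S : K[X]), Module.finrank ℚ K ≤ 2 * Fintype.card J' ∧ R.Monic ∧ S.Monic ∧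
      R.natDegree = n ∧ S.natDegree = n ∧
      C (c : K) * (polA (cv (fun j => σ (i (ω j))) fun q => (v q : K))) - C (σ β) =
        C (c : K) * C (cv (fun j => σ (i (ω j))) (fun q => (v q : K)) (Fin.last (2 * n))) *
          (R * S)} := by
  classical
  haveI : Module.Finite ℤ O' := Module.Finite.of_basis ω'
  haveI : Module.Free ℤ O' := Module.Free.of_basis ω'
  have hcO : ((c : ℤ) : O') ≠ 0 := by
    haveI : CharZero O' := by
      have : Function.Injective (algebraMap ℤ O') := by
        haveI : IsDomain O' := inferInstance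
        exact FaithfulSMul.algebraMap_injective ℤ O'
      exact charZero_of_injective_algebraMap this
    exact_mod_cast hc
  obtain ⟨p, hp, hpS, ⟨σ₀⟩⟩ := spl3 O' J' ω' (c.natAbs.primeFactors)
  haveI := hp
  have hpc : ¬ (p : ℤ) ∣ c := by
    intro h
    apply hpS
    rw [Nat.mem_primeFactors]
    exact ⟨hp.1, Int.natCast_dvd.1 h, Int.natAbs_ne_zero.2 hc⟩
  have hcu : IsUnit ((c : ℤ) : ℤ_[p]) := by
    rw [PadicInt.isUnit_iff]
    have h6 : ¬ ‖((c : ℤ) : ℤ_[p])‖ < 1 := by
      rw [PadicInt.norm_int_lt_one_iff_dvd]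
      exact hpc
    exact le_antisymm (PadicInt.norm_le_one _) (not_lt.1 h6)
  obtain ⟨cu, hcu⟩ := hcu
  set r : ℤ_[p] := (cu⁻¹ : ℤ_[p]ˣ) * σ₀ β with hr
  have hcr : (c : ℤ_[p]) * r = σ₀ β := by
    rw [hr, ← mul_assoc, ← hcu, Units.mul_inv, one_mul]
  set t : Fin (2 * n + 1) → ℤ_[p] := fun l =>
    (X ^ (2 * n) - X ^ (2 * n - 1) + C (r + p) : ℤ_[p][X]).coeff l with ht
  have hone : ∑ j, ((ω.repr 1 j : ℤ) : ℤ_[p]) * σ₀ (i (ω j)) = 1 := by
    have h1 := congrArg (fun x => σ₀ (i x)) (ω.sum_repr 1)
    simp only [map_sum, map_one] at h1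
    rw [← h1]
    refine Finset.sum_congr rfl fun j _ => ?_
    rw [zsmul_eq_mul, map_mul, map_mul, map_intCast, map_intCast]
  have key := transfer ω' (Set.range (eqP (fun j => i (ω j)) ((c : ℤ) : O') β n).coeff) 2 (by
    intro Wf _ _ _ σ y hinj hσa hy
    rw [eqP_iff] at hy
    set v : Fin (2 * n + 1) → Wf := cv (fun j => σ (i (ω j))) fun q =>
      gn (Fin (2 * n + 1) × J) Wf (MvPolynomial.X q) with hv
    have hvalg : ∀ l, IsAlgebraic (EE (Fin (2 * n + 1) × J)) (v l) := by
      intro l
      rw [hv]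
      simp only [cv]
      refine Finset.sum_induction _ (IsAlgebraic (EE (Fin (2 * n + 1) × J)))
        (fun _ _ => IsAlgebraic.add) isAlgebraic_zero ?_
      intro j _
      exact (hσa _).mul (isAlgebraic_algebraMap _)
    -- the leading coefficient
    have hvn : v (Fin.last (2 * n)) ≠ 0 := by
      have e : v (Fin.last (2 * n)) = MvPolynomial.eval₂Hom σ
          (fun q => gn (Fin (2 * n + 1) × J) Wf (MvPolynomial.X q))
          (∑ j, MvPolynomial.C (i (ω j)) * MvPolynomial.X (Fin.last (2 * n), j)) := by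
        rw [hv]
        simp [cv]
      rw [e, Ne, map_eq_zero_iff _ hinj]
      intro h0
      obtain ⟨j0⟩ := (inferInstance : Nonempty J)
      have h2 := congrArg (MvPolynomial.coeff (Finsupp.single (Fin.last (2 * n), j0) 1)) h0
      rw [MvPolynomial.coeff_sum, MvPolynomial.coeff_zero] at h2
      simp only [MvPolynomial.coeff_C_mul] at h2
      rw [Finset.sum_eq_single j0] at h2
      · rw [MvPolynomial.coeff_X', if_pos rfl, mul_one] at h2
        have h3 : ω j0 = 0 := hi (by rw [h2, map_zero])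
        have h4 := ω.ne_zero (i := j0)
        exact h4 h3
      · intro j _ hj
        rw [MvPolynomial.coeff_X', if_neg, mul_zero]
        intro h4
        have h5 := Finsupp.single_left_injective (one_ne_zero) h4
        exact hj (Prod.ext_iff.1 h5).2
      · intro h4
        exact absurd (Finset.mem_univ _) h4
    set f : Wf[X] := C (σ ((c : ℤ) : O')) * polA v - C (σ β) with hf
    have hσc : σ ((c : ℤ) : O') ≠ 0 := by
      have e : σ ((c : ℤ) : O') = MvPolynomial.eval₂Hom σ
          (fun q => gn (Fin (2 * n + 1) × J) Wf (MvPolynomial.X q))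
          (MvPolynomial.C ((c : ℤ) : O')) := by simp
      rw [e, Ne, map_eq_zero_iff _ hinj]
      intro h0
      exact hcO (MvPolynomial.C_injective _ _ (by rw [h0, map_zero]))
    have hRm : (monP fun i : Fin n => y (Sum.inl i)).Monic := monP_monic _
    have hSm : (monP fun i : Fin n => y (Sum.inr i)).Monic := monP_monic _
    have hf0 : f ≠ 0 := by
      rw [hy]
      exact mul_ne_zero (mul_ne_zero (C_ne_zero.2 hσc) (C_ne_zero.2 hvn))
        (hRm.mul hSm).ne_zero
    have hfa : ∀ m, IsAlgebraic (EE (Fin (2 * n + 1) × J)) (f.coeff m) := by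
      intro m
      rw [hf, coeff_sub, coeff_C_mul, coeff_C]
      have h2 : IsAlgebraic (EE (Fin (2 * n + 1) × J)) ((polA v).coeff m) := by
        unfold polA
        rw [finset_sum_coeff]
        refine Finset.sum_induction _ (IsAlgebraic (EE (Fin (2 * n + 1) × J)))
          (fun _ _ => IsAlgebraic.add) isAlgebraic_zero ?_
        intro j _
        rw [coeff_C_mul, coeff_X_pow]
        split_ifs
        · rw [mul_one]
          exact hvalg j
        · rw [mul_zero]
          exact isAlgebraic_zero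
      split_ifs
      · exact ((hσa _).mul h2).sub (hσa _)
      · exact ((hσa _).mul h2).sub isAlgebraic_zero
    rintro (j | j)
    · have h1 := isAlg_factor hf0 hfa hRm (by rw [hy]; exact (dvd_mul_right _ _).mul_left _) j
      rwa [monP_coeff] at h1
    · have h1 := isAlg_factor hf0 hfa hSm (by rw [hy]; exact (dvd_mul_left _ _).mul_left _) j
      rwa [monP_coeff] at h1) p σ₀ (fun q => ((ω.repr 1 q.2 : ℤ) : ℤ_[p]) * t q.1) 2 (by
    intro K' _ A _ _ _ _ _ π τ hπ hπp hπn x hx y hy
    rw [eqP_iff] at hy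
    set b : Fin (2 * n + 1) → A := fun l => ∑ j, τ (σ₀ (i (ω j))) * τ (x (l, j)) with hb
    have hcv : (cv (fun j => ((algebraMap A K').comp (τ.comp σ₀)) (i (ω j)))
        fun q => algebraMap A K' (τ (x q))) = fun l => algebraMap A K' (b l) := by
      funext l
      rw [hb]
      simp [cv]
    rw [hcv, ← polA_map] at hy
    have hci : ((algebraMap A K').comp (τ.comp σ₀)) ((c : ℤ) : O') = algebraMap A K' (τ (c : ℤ_[p])) := by
      simp
    have hcβ : ((algebraMap A K').comp (τ.comp σ₀)) β =
        algebraMap A K' (τ (c : ℤ_[p])) * algebraMap A K' (τ r) := by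
      rw [← map_mul, ← map_mul, hcr]
      rfl
    rw [hci, hcβ, C_mul, ← mul_sub, mul_assoc] at hy
    have hcne : algebraMap A K' (τ (c : ℤ_[p])) ≠ 0 := by
      have h2 : IsUnit (algebraMap A K' (τ (c : ℤ_[p]))) := by
        rw [← hcu]
        exact (cu.isUnit.map τ).map (algebraMap A K')
      exact h2.ne_zero
    have h2 := mul_left_cancel₀ (C_ne_zero.2 hcne) hy
    refine no_split (K' := K') hπ hπp hπn hn (r := τ r) (b := b) ?_
      (monP_monic (fun i : Fin n => y (Sum.inl i))) (monP_monic (fun i : Fin n => y (Sum.inr i)))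
      (monP_natDegree _) (monP_natDegree _) h2
    intro l
    have e1 : (X ^ (2 * n) - X ^ (2 * n - 1) + C (τ r + (p : A)) : A[X]).coeff l = τ (t l) := by
      rw [ht]
      simp only [coeff_add, coeff_sub, coeff_X_pow, coeff_C, map_add, map_sub]
      split_ifs <;> simp
    have e : b l - τ (t l) =
        τ (∑ j, σ₀ (i (ω j)) * (x (l, j) - ((ω.repr 1 j : ℤ) : ℤ_[p]) * t l)) := by
      have e1 : τ (t l) = τ ((∑ j, ((ω.repr 1 j : ℤ) : ℤ_[p]) * σ₀ (i (ω j))) * t l) := by
        rw [hone, one_mul]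
      rw [e1, hb, Finset.sum_mul, map_sum, map_sum, ← Finset.sum_sub_distrib]
      refine Finset.sum_congr rfl fun j _ => ?_
      rw [← map_mul, ← map_sub]
      congr 1
      ring
    rw [e1, e]
    have h3 : (p : ℤ_[p]) ^ 2 ∣
        ∑ j, σ₀ (i (ω j)) * (x (l, j) - ((ω.repr 1 j : ℤ) : ℤ_[p]) * t l) :=
      Finset.dvd_sum fun j _ => Dvd.dvd.mul_left (hx (l, j)) _
    have h4 := map_dvd τ h3
    rwa [map_pow, map_natCast] at h4)
  intro ε hε
  refine (key ε hε).mono ?_
  rintro v ⟨K, _, _, σ, R, S, hK, hR, hS, hRd, hSd, hθ⟩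
  refine ⟨K, inferInstance, inferInstance, σ, Sum.elim (fun i => R.coeff i) (fun i => S.coeff i),
    hK, ?_⟩
  rw [eqP_iff, map_intCast]
  have e1 : (monP fun i : Fin n => (Sum.elim (fun i : Fin n => R.coeff i)
      (fun i : Fin n => S.coeff i) (Sum.inl i) : K)) = R := (eq_monP hR hRd).symm
  have e2 : (monP fun i : Fin n => (Sum.elim (fun i : Fin n => R.coeff i)
      (fun i : Fin n => S.coeff i) (Sum.inr i) : K)) = S := (eq_monP hS hSd).symm
  rw [e1, e2]
  exact hθ

end dens

section nf

variable {k : Type} [Field k] [NumberField k] {J : Type} [Fintype J] (B : Module.Basis J ℤ (𝓞 k))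

theorem dens_noQ {π : k[X]} (hπ : Irreducible π) {n : ℕ} (hn : 2 ≤ n) :
    D0 {v : Fin (2 * n + 1) × J → ℤ | (polA fun l => kv B v l).natDegree = 2 * n ∧
      Irreducible (π.comp (polA fun l => kv B v l)) ∧ ¬ NoQ π (polA fun l => kv B v l)} := by
  classical
  haveI : Fact (Irreducible π) := ⟨hπ⟩
  obtain ⟨j0⟩ : Nonempty J := by
    rw [← Fintype.card_pos_iff, card_J B]
    exact Module.finrank_pos
  haveI : Nonempty J := ⟨j0⟩
  let L := AdjoinRoot π
  haveI : FiniteDimensional k L := (AdjoinRoot.powerBasis hπ.ne_zero).finite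
  haveI : CharZero L := charZero_of_injective_algebraMap (algebraMap k L).injective
  haveI : IsScalarTower ℚ k L := IsScalarTower.of_algebraMap_eq fun q => by simp
  haveI : FiniteDimensional ℚ L := FiniteDimensional.trans ℚ k L
  haveI : NumberField L := { to_charZero := inferInstance, to_finiteDimensional := inferInstance }
  obtain ⟨c, hc0, hc⟩ : ∃ d : ℤ, d ≠ 0 ∧ IsIntegral ℤ (d • (AdjoinRoot.root π : L)) := by
    have h2 : IsAlgebraic ℤ (AdjoinRoot.root π : L) := (IsFractionRing.isAlgebraic_iff ℤ ℚ L).2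
      (Algebra.IsAlgebraic.isAlgebraic _)
    obtain ⟨y, hy, h3⟩ := h2.exists_integral_multiple
    exact ⟨y, hy, h3⟩
  let β : 𝓞 L := ⟨c • (AdjoinRoot.root π : L), hc⟩
  have hβ : algebraMap (𝓞 L) L β = (c : L) * AdjoinRoot.root π := by
    rw [← zsmul_eq_mul]
    rfl
  let i : 𝓞 k →+* 𝓞 L := RingOfIntegers.mapRingHom (algebraMap k L)
  have hi : ∀ x, algebraMap (𝓞 L) L (i x) = algebraMap k L (algebraMap (𝓞 k) k x) := fun x => rfl
  have hinj : Function.Injective i := by
    intro x y hxy
    have h1 := congrArg (algebraMap (𝓞 L) L) hxy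
    rw [hi, hi] at h1
    exact FaithfulSMul.algebraMap_injective (𝓞 k) k ((algebraMap k L).injective h1)
  set B' := RingOfIntegers.basis L with hB'
  have hcard := card_J B'
  intro ε hε
  refine (dens_fac B B' i hinj β c hc0 hn ε hε).mono ?_
  rintro v ⟨hdeg, hirr, hnq⟩
  set h : k[X] := polA fun l => kv B v l with hh
  obtain ⟨M, _, _, hM, n', R, S, hn', hR, hS, hRd, hSd, hRS⟩ := quad_factor hirr (by omega) hnq
  have hnn : n' = n := by omega
  subst hnn
  haveI : FiniteDimensional L M := FiniteDimensional.of_finrank_pos (by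
    have h5 : Module.finrank L M = 2 := hM
    rw [h5]
    exact two_pos)
  haveI : CharZero M := charZero_of_injective_algebraMap (algebraMap L M).injective
  haveI : IsScalarTower ℚ L M := IsScalarTower.of_algebraMap_eq fun q => by simp
  haveI : FiniteDimensional ℚ M := FiniteDimensional.trans ℚ L M
  haveI : NumberField M := { to_charZero := inferInstance, to_finiteDimensional := inferInstance }
  letI : Algebra k M := ((algebraMap L M).comp (algebraMap k L)).toAlgebra
  refine ⟨M, inferInstance, inferInstance, (algebraMap L M).comp (algebraMap (𝓞 L) L), R, S, ?_,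
    hR, hS, hRd, hSd, ?_⟩
  · rw [hcard, ← Module.finrank_mul_finrank ℚ L M, mul_comm]
    have h5 : Module.finrank L M = 2 := hM
    rw [h5]
  · have h4 : (fun j => ((algebraMap L M).comp (algebraMap (𝓞 L) L)) (i (B j))) =
        fun j => ((algebraMap k M).comp (algebraMap (𝓞 k) k)) (B j) := by
      funext j
      rw [RingHom.comp_apply, hi]
      rfl
    have hl : h.leadingCoeff = kv B v (Fin.last (2 * n')) := by
      have h6 : h.coeff (2 * n') = kv B v (Fin.last (2 * n')) := by
        rw [hh]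
        unfold polA
        rw [finset_sum_coeff, Finset.sum_eq_single (Fin.last (2 * n'))]
        · simp
        · intro i _ hi
          rw [coeff_C_mul, coeff_X_pow, if_neg, mul_zero]
          intro h0
          exact hi (Fin.ext (by rw [Fin.val_last]; exact h0.symm))
        · intro h0
          exact absurd (Finset.mem_univ _) h0
      rw [leadingCoeff, hdeg, h6]
    rw [h4, cv_kv B v, RingHom.comp_apply, hβ, map_mul, map_intCast (algebraMap L M), ← polA_map,
      ← hh, C_mul, ← mul_sub, mul_assoc]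
    congr 1
    rw [hl] at hRS
    exact hRS

/-- **Almost all polynomials preserve primes and create no new square roots.** -/
theorem dens_good {F : k[X]} (hF : F ≠ 0) {m : ℕ} (hm : 1 ≤ m) (hm2 : m ≠ 2) :
    D0 {v : Fin (m + 1) × J → ℤ | ¬ ((polA fun l => kv B v l).natDegree = m ∧
      Good F (polA fun l => kv B v l))} := by
  classical
  have h1 := dens_comp B hF (n := m) (by omega)
  rcases Nat.even_or_odd m with hm3 | hm3
  · obtain ⟨n, rfl⟩ := hm3
    have hnn : n + n = 2 * n := by ring
    rw [hnn] at h1 hm hm2 ⊢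
    set S := (UniqueFactorizationMonoid.normalizedFactors F).toFinset with hS
    have hmem : ∀ π ∈ S, Irreducible π := by
      intro π hπ
      rw [hS, Multiset.mem_toFinset] at hπ
      exact UniqueFactorizationMonoid.irreducible_of_normalized_factor π hπ
    have h2 : D0 (⋃ π ∈ S, {v : Fin (2 * n + 1) × J → ℤ |
        (polA fun l => kv B v l).natDegree = 2 * n ∧
        Irreducible (π.comp (polA fun l => kv B v l)) ∧ ¬ NoQ π (polA fun l => kv B v l)}) :=
      D0.biUnion _ _ fun π hπ => dens_noQ B (hmem π hπ) (by omega)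
    intro ε hε
    refine ((h1.union h2) ε hε).mono ?_
    intro v hv
    by_contra hcon
    apply hv
    rw [Set.mem_union, not_or] at hcon
    obtain ⟨k1, k2⟩ := hcon
    rw [Set.mem_setOf_eq, not_not] at k1
    simp only [Set.mem_iUnion, exists_prop, not_exists, not_and,
      Set.mem_setOf_eq, not_not] at k2
    refine ⟨k1.1, ?_⟩
    intro π hπ hdv
    refine ⟨k1.2 π hπ hdv, ?_⟩
    obtain ⟨π', hπ', has⟩ := UniqueFactorizationMonoid.exists_mem_normalizedFactors_of_dvd hF hπ hdv
    have hπ'S : π' ∈ S := by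
      rw [hS, Multiset.mem_toFinset]
      exact hπ'
    have hπi := hmem π' hπ'S
    have hπ'F : π' ∣ F := has.dvd'.trans hdv
    have h3 := k2 π' hπ'S k1.1 (k1.2 π' hπi hπ'F)
    intro g r hgr
    have h4 : π'.comp (polA fun l => kv B v l) ∣ π.comp (polA fun l => kv B v l) := by
      obtain ⟨w, hw⟩ := has.dvd'
      exact ⟨w.comp _, by rw [hw, mul_comp]⟩
    obtain ⟨s, hs⟩ := h3 g r (h4.trans hgr)
    exact ⟨s, has.dvd.trans hs⟩
  · intro ε hε
    refine (h1 ε hε).mono ?_
    intro v hv
    by_contra hcon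
    apply hv
    simp only [Set.mem_setOf_eq, not_not] at hcon
    refine ⟨hcon.1, ?_⟩
    intro π hπ hdv
    refine ⟨hcon.2 π hπ hdv, noQ_of_odd hπ (hcon.2 π hπ hdv) ?_⟩
    rw [hcon.1]
    exact hm3

end nf

end Pool.Agent.T6.H14.EV
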