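import Pool.Agent.T6.H14.EV.Pts
import Pool.Agent.T6.H14.EV.Dens

/-!
# The Tate conjecture at 2 for almost all base changes of every degree
-/

set_option autoImplicit false
set_option linter.all false

namespace Pool.Agent.T6.H14.EV

open Polynomial NumberField Pool.Agent.R939.EI Pool.Agent.R939.HI Pool.Agent.W275.UB
open Pool.Agent.TH115.GD Pool.Agent Pool.Agent.H927R2.RD Pool.Agent.W275.ND

/-- The hypotheses of the descent for the curve `y² = x (x² + a x + b)`, with points: `b` and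
`a² - 4 b` satisfy `NotNorm`, and `NormPoints` holds for the curve and for the isogenous curve
`y² = x (x² - 2 a x + a² - 4 b)`. -/
def Crit (K F : Type) {k : Type} [Field k] [Field K] [Algebra k[X] K] [Field F] [Algebra K F]
    (a b : k[X]) : Prop :=
  NotNorm b ∧ NotNorm (a ^ 2 - 4 * b) ∧ NormPoints K F a b ∧ NormPoints K F (-2 * a) (a ^ 2 - 4 * b)

/-- The hypotheses of the descent for the curve `y² = x (x² + a x + b)`, with trivial Selmer groups:
`b` and `a² - 4 b` satisfy `NotNorm`, and `OnlyTrivial` holds for the curve and for the isogenous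
curve `y² = x (x² - 2 a x + a² - 4 b)`. -/
def CritTriv {k : Type} [Field k] (a b : k[X]) : Prop :=
  NotNorm b ∧ NotNorm (a ^ 2 - 4 * b) ∧ OnlyTrivial a b ∧ OnlyTrivial (-2 * a) (a ^ 2 - 4 * b)

/-- The polynomial `h` is good for the curve `y² = x (x² + a x + b)`: the base change by `t ↦ h(t)`
preserves `Crit` and the Tate conjecture at 2 holds for it; and it preserves `CritTriv` and the Tate
conjecture at 2 holds for all its twists by `c D`, `c` a constant, `D` a polynomial such that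
`b(h)` and `a(h)² - 4 b(h)` are not squares modulo any prime which divides `D`. -/
def Tame (k' K F : Type) {k : Type} [Field k] [Field k'] [Algebra k k'] [Field K] [Algebra k[X] K]
    [Field F] [Algebra k'[X] F] [IsFractionRing k'[X] F] [Algebra K F] (a b h : k[X]) : Prop :=
  (Crit K F a b → Crit K F (a.comp h) (b.comp h) ∧
    TateAtTwo (F := F) k' (crvT (algebraMap k[X] K (a.comp h)) (algebraMap k[X] K (b.comp h)))) ∧
  (CritTriv a b → CritTriv (a.comp h) (b.comp h) ∧
    ∀ D : k[X], InertIn (a.comp h) (b.comp h) D → ∀ c : k, c ≠ 0 →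
      TateAtTwo (F := F) k' (crvT (algebraMap k[X] K (C c * (a.comp h * D)))
        (algebraMap k[X] K (C (c ^ 2) * (b.comp h * D ^ 2)))))

section

variable {k k' K F : Type} [Field k] [Field k'] [Algebra k k'] [Field K] [Algebra k[X] K]
    [Field F] [Algebra k'[X] F] [IsFractionRing k'[X] F] [Algebra K F]

theorem tame_of_good [CharZero k] (hT : IsTower k k' K F) {a b h : k[X]} (hh : 0 < h.natDegree)
    (hg : Good (b * (a ^ 2 - 4 * b)) h) : Tame k' K F a b h := by
  have hne : ∀ {p : k[X]}, NotNorm p → p ≠ 0 := by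
    rintro p hp rfl
    exact (hp 0 0 0 0 (by simp)).1 rfl
  constructor
  · rintro ⟨h1, h2, h3, h4⟩
    obtain ⟨s1, s2, s3, -⟩ := main_good hT h1 h2 (hne h1) (hne h2) hh hg
    obtain ⟨s4, s5, s6⟩ := s3 ⟨h3, h4⟩
    exact ⟨⟨s1, s2, s4, s5⟩, s6⟩
  · rintro ⟨h1, h2, h3, h4⟩
    obtain ⟨s1, s2, -, s3⟩ := main_good hT h1 h2 (hne h1) (hne h2) hh hg
    obtain ⟨s4, s5, s6⟩ := s3 ⟨h3, h4⟩
    exact ⟨⟨s1, s2, s4, s5⟩, s6⟩

/-- **Almost all base changes of every degree.** -/
theorem almost_all [NumberField k] (hT : IsTower k k' K F) {J : Type} [Fintype J]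
    (B : Module.Basis J ℤ (𝓞 k)) {G : k[X]} (hG : G ≠ 0) {m : ℕ} (hm : 1 ≤ m) (hm2 : m ≠ 2)
    {η : ℝ} (hη : 0 < η) :
    ∃ H0 : ℕ, ∀ H : ℕ, H0 ≤ H →
      (({x : Fin (m + 1) → 𝓞 k | (∀ j t, |B.repr (x j) t| ≤ (H : ℤ)) ∧
        ¬ ((polA fun j => algebraMap (𝓞 k) k (x j)).natDegree = m ∧
          ∀ a b : k[X], (∀ π : k[X], Irreducible π → π ∣ b * (a ^ 2 - 4 * b) → π ∣ G) →
            Tame k' K F a b (polA fun j => algebraMap (𝓞 k) k (x j)))}.ncard : ℕ) : ℝ) ≤
        η * (2 * H + 1) ^ (Fintype.card J * (m + 1)) := by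
  classical
  obtain ⟨H0, hH⟩ := dens_good B hG hm hm2 η hη
  refine ⟨H0, fun H hHH => ?_⟩
  have h1 := hH H hHH
  have hcard : Fintype.card (Fin (m + 1) × J) = Fintype.card J * (m + 1) := by
    rw [Fintype.card_prod, Fintype.card_fin, Nat.mul_comm]
  rw [hcard] at h1
  refine le_trans ?_ h1
  let φ : (Fin (m + 1) → 𝓞 k) → (Fin (m + 1) × J → ℤ) := fun y q => B.repr (y q.1) q.2
  have hkv : ∀ y (j : Fin (m + 1)), kv B (φ y) j = algebraMap (𝓞 k) k (y j) := by
    intro y j
    show algebraMap (𝓞 k) k (elt B fun t => B.repr (y j) t) = _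
    rw [← basis_elt B]
  have hinj : Function.Injective φ := by
    intro y z hyz
    funext j
    apply FaithfulSMul.algebraMap_injective (𝓞 k) k
    have h3 := hkv y j
    rw [hyz, hkv z j] at h3
    exact h3.symm
  have h4 : (Set.ncard {x : Fin (m + 1) → 𝓞 k | (∀ j t, |B.repr (x j) t| ≤ (H : ℤ)) ∧
        ¬ ((polA fun j => algebraMap (𝓞 k) k (x j)).natDegree = m ∧
          ∀ a b : k[X], (∀ π : k[X], Irreducible π → π ∣ b * (a ^ 2 - 4 * b) → π ∣ G) →
            Tame k' K F a b (polA fun j => algebraMap (𝓞 k) k (x j)))}) ≤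
      Set.ncard {v : Fin (m + 1) × J → ℤ |
        v ∈ {v : Fin (m + 1) × J → ℤ | ¬ ((polA fun l => kv B v l).natDegree = m ∧
          Good G (polA fun l => kv B v l))} ∧ ∀ i, |v i| ≤ (H : ℤ)} := by
    rw [← Set.ncard_image_of_injective _ hinj]
    refine Set.ncard_le_ncard ?_ (box_fin _ H)
    rintro _ ⟨y, ⟨b1, hbad⟩, rfl⟩
    refine ⟨?_, ?_⟩
    · rw [Set.mem_setOf_eq]
      rintro ⟨e1, hgood⟩
      apply hbad
      simp only [hkv] at e1 hgood
      refine ⟨e1, ?_⟩
      intro a b hab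
      exact tame_of_good hT (by rw [e1]; exact hm) fun π hπ hdv => hgood π hπ (hab π hπ hdv)
    · rintro ⟨j, t⟩
      exact b1 j t
  exact_mod_cast h4

end

end Pool.Agent.T6.H14.EV
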