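import Pool.Agent.T6.H14.EV.Stab

/-!
# Conics over `k(t)` without residues

A conic `A z² + d y² = x²` over `k(s)` whose residues at all the primes of `k[s]` are trivial is
isomorphic to a conic with constant coefficients; so it has a point over `k(s)` if it has a point over
`k(t)`, `s = h(t)`.
-/

set_option autoImplicit false
set_option linter.all false

open Polynomial
open scoped Classical

namespace Pool.Agent.T6.H14.EV

open Pool.Agent.TH115.GD Pool.Agent.R939.EI

section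

variable {k : Type} [Field k]

/-- The conic `A z² + d y² = x²` has a point. -/
def Sp (A d : k[X]) : Prop := ∃ x y z : k[X], (z ≠ 0 ∨ y ≠ 0) ∧ A * z ^ 2 + d * y ^ 2 = x ^ 2

/-- The residues of the quaternion algebra `(A, d)` are trivial (`A`, `d` squarefree). -/
def NoRes (A d : k[X]) : Prop :=
  (∀ π : k[X], Irreducible π → π ∣ A → ¬ π ∣ d → ∃ r : k[X], π ∣ d - r ^ 2) ∧
  (∀ π : k[X], Irreducible π → π ∣ d → ¬ π ∣ A → ∃ r : k[X], π ∣ A - r ^ 2) ∧
  ∀ π A' d' : k[X], Irreducible π → A = π * A' → d = π * d' → ∃ r : k[X], π ∣ A' * d' + r ^ 2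

theorem Sp.symm {A d : k[X]} (h : Sp A d) : Sp d A := by
  obtain ⟨x, y, z, h1, h2⟩ := h
  exact ⟨x, z, y, h1.symm, by rw [← h2]; ring⟩

theorem NoRes.symm {A d : k[X]} (h : NoRes A d) : NoRes d A :=
  ⟨h.2.1, h.1, fun π A' d' hπ hA hd => by
    obtain ⟨r, hr⟩ := h.2.2 π d' A' hπ hd hA
    exact ⟨r, by rwa [mul_comm A' d']⟩⟩

theorem sq_cancel {π u v B : k[X]} (hπ : Irreducible π) (hu : ¬ π ∣ u) (h : π ∣ u ^ 2 * B - v ^ 2) :
    ∃ r : k[X], π ∣ B - r ^ 2 := by
  obtain ⟨p, q, hpq⟩ := hπ.coprime_iff_not_dvd.2 hu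
  refine ⟨q * v, ?_⟩
  have e : B - (q * v) ^ 2 = q ^ 2 * (u ^ 2 * B - v ^ 2) + π * (p * (1 + q * u) * B) := by
    have h1 : q * u = 1 - p * π := by linear_combination hpq
    linear_combination (-(B * (1 + q * u))) * h1
  rw [e]
  exact dvd_add (h.mul_left _) (dvd_mul_right _ _)

/-- a solution which is primitive at `π` -/
theorem Sp.prim {A d π : k[X]} (hπ : Irreducible π) (h : Sp A d) :
    ∃ x y z : k[X], A * z ^ 2 + d * y ^ 2 = x ^ 2 ∧ ¬ (π ∣ x ∧ π ∣ y ∧ π ∣ z) := by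
  obtain ⟨x, y, z, h1, h2⟩ := h
  induction hn : z.natDegree + y.natDegree using Nat.strong_induction_on generalizing x y z with
  | _ n ih =>
    by_cases hall : π ∣ x ∧ π ∣ y ∧ π ∣ z
    · obtain ⟨⟨x', rfl⟩, ⟨y', rfl⟩, ⟨z', rfl⟩⟩ := hall
      have hπ0 := hπ.ne_zero
      have hpos := hπ.natDegree_pos
      have h3 : z' ≠ 0 ∨ y' ≠ 0 := by
        rcases h1 with h1 | h1
        · exact Or.inl (right_ne_zero_of_mul h1)
        · exact Or.inr (right_ne_zero_of_mul h1)
      have h4 : A * z' ^ 2 + d * y' ^ 2 = x' ^ 2 := by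
        apply mul_left_cancel₀ (pow_ne_zero 2 hπ0)
        linear_combination h2
      have hle : ∀ w : k[X], w.natDegree ≤ (π * w).natDegree := by
        intro w
        by_cases hw : w = 0
        · rw [hw, mul_zero]
        · rw [natDegree_mul hπ0 hw]
          omega
      have hlt : ∀ w : k[X], w ≠ 0 → w.natDegree < (π * w).natDegree := by
        intro w hw
        rw [natDegree_mul hπ0 hw]
        omega
      refine ih (z'.natDegree + y'.natDegree) ?_ x' y' z' h3 h4 rfl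
      rw [← hn]
      rcases h3 with h3 | h3
      · exact Nat.add_lt_add_of_lt_of_le (hlt _ h3) (hle _)
      · exact Nat.add_lt_add_of_le_of_lt (hle _) (hlt _ h3)
    · exact ⟨x, y, z, h2, hall⟩

theorem Sp.res1 {A d π : k[X]} (h : Sp A d) (hA : Squarefree A) (hπ : Irreducible π)
    (hπA : π ∣ A) : ∃ r : k[X], π ∣ d - r ^ 2 := by
  obtain ⟨x, y, z, e, hn⟩ := h.prim hπ
  obtain ⟨A', rfl⟩ := hπA
  have hA' : ¬ π ∣ A' := by
    rintro ⟨A'', rfl⟩
    exact hπ.not_isUnit (hA π ⟨A'', by ring⟩)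
  have hy : ¬ π ∣ y := by
    rintro ⟨y', rfl⟩
    have hx : π ∣ x := by
      refine hπ.prime.dvd_of_dvd_pow (n := 2) ?_
      rw [← e]
      exact ⟨A' * z ^ 2 + d * (π * y' ^ 2), by ring⟩
    obtain ⟨x', rfl⟩ := hx
    apply hn
    refine ⟨dvd_mul_right _ _, dvd_mul_right _ _, ?_⟩
    have h3 : π ∣ A' * z ^ 2 := by
      refine ⟨x' ^ 2 - d * y' ^ 2, ?_⟩
      apply mul_left_cancel₀ hπ.ne_zero
      linear_combination e
    rcases hπ.prime.dvd_or_dvd h3 with h4 | h4
    · exact absurd h4 hA'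
    · exact hπ.prime.dvd_of_dvd_pow h4
  refine sq_cancel hπ hy (v := x) ?_
  exact ⟨-(A' * z ^ 2), by linear_combination e⟩

theorem Sp.res3 {A' d' π : k[X]} (h : Sp (π * A') (π * d')) (hA : Squarefree (π * A'))
    (hd : Squarefree (π * d')) (hπ : Irreducible π) : ∃ r : k[X], π ∣ A' * d' + r ^ 2 := by
  obtain ⟨x, y, z, e, hn⟩ := h.prim hπ
  have hA' : ¬ π ∣ A' := by
    rintro ⟨A'', rfl⟩
    exact hπ.not_isUnit (hA π ⟨A'', by ring⟩)
  have hd' : ¬ π ∣ d' := by
    rintro ⟨d'', rfl⟩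
    exact hπ.not_isUnit (hd π ⟨d'', by ring⟩)
  have hx : π ∣ x := by
    refine hπ.prime.dvd_of_dvd_pow (n := 2) ?_
    rw [← e]
    exact ⟨A' * z ^ 2 + d' * y ^ 2, by ring⟩
  obtain ⟨x', rfl⟩ := hx
  have e2 : A' * z ^ 2 + d' * y ^ 2 = π * x' ^ 2 := by
    apply mul_left_cancel₀ hπ.ne_zero
    linear_combination e
  have hz : ¬ π ∣ z := by
    rintro ⟨z', rfl⟩
    apply hn
    refine ⟨dvd_mul_right _ _, ?_, dvd_mul_right _ _⟩
    have h3 : π ∣ d' * y ^ 2 := ⟨x' ^ 2 - A' * π * z' ^ 2, by linear_combination e2⟩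
    rcases hπ.prime.dvd_or_dvd h3 with h4 | h4
    · exact absurd h4 hd'
    · exact hπ.prime.dvd_of_dvd_pow h4
  obtain ⟨r, hr⟩ := sq_cancel hπ hz (B := -(A' * d')) (v := d' * y)
    ⟨-(d' * x' ^ 2), by linear_combination (-d') * e2⟩
  refine ⟨r, ?_⟩
  rw [← dvd_neg]
  have e3 : -(A' * d' + r ^ 2) = -(A' * d') - r ^ 2 := by ring
  rwa [e3]

theorem Sp.trans {A A₁ d x0 y0 : k[X]} (h : Sp A d) (hA : A ≠ 0)
    (e0 : A * A₁ = x0 ^ 2 - d * y0 ^ 2) : Sp A₁ d := by
  obtain ⟨x, y, z, h1, e⟩ := h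
  by_cases hz : z = 0
  · subst hz
    refine ⟨x, y, 0, h1, ?_⟩
    linear_combination e
  · refine ⟨x0 * x + d * y0 * y, x0 * y + x * y0, A * z, Or.inl (mul_ne_zero hA hz), ?_⟩
    linear_combination (x0 ^ 2 - d * y0 ^ 2) * e + (A * z ^ 2) * e0

theorem Sp.sq_right {A d T : k[X]} (hT : T ≠ 0) (h : Sp (A * T ^ 2) d) : Sp A d := by
  obtain ⟨x, y, z, h1, e⟩ := h
  refine ⟨x, y, T * z, ?_, by linear_combination e⟩
  rcases h1 with h1 | h1
  · exact Or.inl (mul_ne_zero hT h1)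
  · exact Or.inr h1

theorem Sp.sq_left {A d T : k[X]} (hT : T ≠ 0) (h : Sp A d) : Sp (A * T ^ 2) d := by
  obtain ⟨x, y, z, h1, e⟩ := h
  refine ⟨T * x, T * y, z, ?_, by linear_combination (T ^ 2) * e⟩
  rcases h1 with h1 | h1
  · exact Or.inl h1
  · exact Or.inr (mul_ne_zero hT h1)

/-- A polynomial which is a square modulo all the primes of a squarefree polynomial. -/
theorem sq_crt {d : k[X]} {A : k[X]} (hA0 : A ≠ 0) (hA : Squarefree A)
    (h : ∀ π : k[X], Irreducible π → π ∣ A → ∃ r : k[X], π ∣ d - r ^ 2) :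
    ∃ r : k[X], A ∣ d - r ^ 2 := by
  induction A using UniqueFactorizationMonoid.induction_on_prime with
  | h₁ => exact absurd rfl hA0
  | h₂ A hu => exact ⟨0, hu.dvd⟩
  | h₃ A π hA0' hπ ih =>
    have hAs : Squarefree A := hA.squarefree_of_dvd (dvd_mul_left _ _)
    obtain ⟨r1, hr1⟩ := ih hA0' hAs fun q hq hqA => h q hq (hqA.mul_left _)
    obtain ⟨r2, hr2⟩ := h π hπ.irreducible (dvd_mul_right _ _)
    have hnd : ¬ π ∣ A := by
      rintro ⟨A'', rfl⟩
      exact hπ.irreducible.not_isUnit (hA π ⟨A'', by ring⟩)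
    have hcop : IsCoprime π A := hπ.irreducible.coprime_iff_not_dvd.2 hnd
    obtain ⟨u, v, huv⟩ := id hcop
    refine ⟨r1 * (u * π) + r2 * (v * A), hcop.mul_dvd ?_ ?_⟩
    · obtain ⟨s, hs⟩ := hr2
      have h1 : v * A = 1 - u * π := by linear_combination huv
      refine ⟨s - u * (r1 - r2) * (2 * r2 + u * π * (r1 - r2)), ?_⟩
      rw [h1]
      linear_combination hs
    · obtain ⟨s, hs⟩ := hr1
      have h1 : u * π = 1 - v * A := by linear_combination huv
      refine ⟨s - v * (r2 - r1) * (2 * r1 + v * A * (r2 - r1)), ?_⟩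
      rw [h1]
      linear_combination hs

/-- one step of the reduction -/
theorem NoRes.step {A A₁ d T x0 : k[X]} (h : NoRes A d) (hA : Squarefree A) (hd : Squarefree d)
    (e : A * A₁ * T ^ 2 = x0 ^ 2 - d) : NoRes A₁ d := by
  have hT : ∀ π : k[X], Irreducible π → π ∣ d → ¬ π ∣ T := by
    rintro π hπ hπd ⟨T', rfl⟩
    have hx : π ∣ x0 := by
      refine hπ.prime.dvd_of_dvd_pow (n := 2) ?_
      have e2 : x0 ^ 2 = d + π * (A * A₁ * π * T' ^ 2) := by linear_combination -e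
      rw [e2]
      exact dvd_add hπd (dvd_mul_right _ _)
    obtain ⟨x1, rfl⟩ := hx
    exact hπ.not_isUnit (hd π ⟨x1 ^ 2 - A * A₁ * T' ^ 2, by linear_combination e⟩)
  refine ⟨?_, ?_, ?_⟩
  · rintro π hπ ⟨B, rfl⟩ -
    exact ⟨x0, -(A * B * T ^ 2), by linear_combination e⟩
  · intro π hπ hπd hπA₁
    by_cases hπA : π ∣ A
    · obtain ⟨A', rfl⟩ := hπA
      obtain ⟨d', rfl⟩ := hπd
      obtain ⟨w, hw⟩ := h.2.2 π A' d' hπ rfl rfl
      have hx : π ∣ x0 := by
        refine hπ.prime.dvd_of_dvd_pow (n := 2) ?_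
        exact ⟨A' * A₁ * T ^ 2 + d', by linear_combination -e⟩
      obtain ⟨x1, rfl⟩ := hx
      have e2 : A' * A₁ * T ^ 2 = π * x1 ^ 2 - d' := by
        apply mul_left_cancel₀ hπ.ne_zero
        linear_combination e
      have hA' : ¬ π ∣ A' := by
        rintro ⟨A'', rfl⟩
        exact hπ.not_isUnit (hA π ⟨A'', by ring⟩)
      have hu : ¬ π ∣ A' * T := by
        intro h0
        rcases hπ.prime.dvd_or_dvd h0 with h1 | h1
        · exact hA' h1
        · exact hT π hπ (dvd_mul_right _ _) h1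
      obtain ⟨s, hs⟩ := hw
      exact sq_cancel hπ hu (v := w) ⟨A' * x1 ^ 2 - s, by linear_combination A' * e2 - hs⟩
    · obtain ⟨w, s, hs⟩ := h.2.1 π hπ hπd hπA
      have hu : ¬ π ∣ A * T := by
        intro h0
        rcases hπ.prime.dvd_or_dvd h0 with h1 | h1
        · exact hπA h1
        · exact hT π hπ hπd h1
      obtain ⟨d', rfl⟩ := hπd
      -- `A² T² A₁ ≡ A x0² ≡ (w x0)²`
      exact sq_cancel hπ hu (v := w * x0) ⟨s * x0 ^ 2 - A * d', by
        linear_combination A * e + x0 ^ 2 * hs⟩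
  · rintro π A₁' d' hπ rfl rfl
    have hx : π ∣ x0 := by
      refine hπ.prime.dvd_of_dvd_pow (n := 2) ?_
      exact ⟨A * A₁' * T ^ 2 + d', by linear_combination -e⟩
    obtain ⟨x1, rfl⟩ := hx
    have e2 : A * A₁' * T ^ 2 = π * x1 ^ 2 - d' := by
      apply mul_left_cancel₀ hπ.ne_zero
      linear_combination e
    by_cases hπA : π ∣ A
    · exfalso
      obtain ⟨A', rfl⟩ := hπA
      exact hπ.not_isUnit (hd π ⟨x1 ^ 2 - A' * A₁' * T ^ 2, by
        linear_combination π * e2⟩)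
    · obtain ⟨w, s, hs⟩ := h.2.1 π hπ (dvd_mul_right _ _) hπA
      refine ⟨w * A₁' * T, A₁' * x1 ^ 2 - s * (A₁' * T) ^ 2, ?_⟩
      linear_combination A₁' * e2 - (A₁' * T) ^ 2 * hs

/-- **Conics without residues.** -/
theorem descent {h : k[X]} (hh : 0 < h.natDegree) :
    ∀ (n : ℕ) (A d : k[X]), A.natDegree + d.natDegree = n → A ≠ 0 → d ≠ 0 → Squarefree A →
      Squarefree d → NoRes A d → Sp (A.comp h) (d.comp h) → Sp A d := by
  intro n
  induction n using Nat.strong_induction_on with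
  | _ n ih =>
    -- the first polynomial is constant
    have base : ∀ (A d : k[X]), A.natDegree = 0 → A ≠ 0 → d ≠ 0 → NoRes A d →
        Sp (A.comp h) (d.comp h) → Sp A d := by
      intro A d hA hA0 hd0 hN hS
      obtain ⟨ε, rfl⟩ : ∃ ε, A = C ε := ⟨A.coeff 0, eq_C_of_natDegree_eq_zero hA⟩
      have hε : ε ≠ 0 := C_ne_zero.1 hA0
      by_cases hsq : IsSquare ε
      · obtain ⟨e, rfl⟩ := hsq
        exact ⟨C e, 0, 1, Or.inl one_ne_zero, by rw [C_mul]; ring⟩
      · have hp : ∀ π : k[X], Irreducible π → π ∣ d →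
            ∃ (c : k) (A B : k[X]), π = C c * (A ^ 2 - C ε * B ^ 2) := by
          intro π hπ hπd
          obtain ⟨r, hr⟩ := hN.2.1 π hπ hπd (fun h0 =>
            hπ.not_isUnit (isUnit_of_dvd_unit h0 (isUnit_C.2 (isUnit_iff_ne_zero.2 hε))))
          exact norm_of_sq_mod hπ hsq hr
        obtain ⟨c, U, V, hc⟩ := norm_of_primes hd0 hp
        have e1 : d * C c = (C c * U) ^ 2 - C ε * (C c * V) ^ 2 := by
          rw [hc]; ring
        have e1c : d.comp h * C c =
            (C c * U.comp h) ^ 2 - C ε * (C c * V.comp h) ^ 2 := by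
          have := congrArg (fun p : k[X] => p.comp h) e1
          simpa only [mul_comp, sub_comp, pow_comp, C_comp] using this
        rw [C_comp] at hS
        have h1 : Sp (C c) (C ε) := hS.symm.trans (comp_ne hh hd0) e1c
        have hc0 : (C c : k[X]) ≠ 0 := by
          intro h0
          rw [h0, zero_mul] at hc
          exact hd0 hc
        exact (h1.trans hc0 (by rw [mul_comm]; exact e1)).symm
    -- the main step
    have step : ∀ (A d : k[X]), A.natDegree + d.natDegree = n → d.natDegree ≤ A.natDegree →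
        0 < A.natDegree → A ≠ 0 → d ≠ 0 → Squarefree A → Squarefree d → NoRes A d →
        Sp (A.comp h) (d.comp h) → Sp A d := by
      intro A d hn hle hpos hA0 hd0 hA hd hN hS
      obtain ⟨r, hr⟩ := sq_crt hA0 hA (d := d) (by
        intro π hπ hπA
        by_cases hπd : π ∣ d
        · exact ⟨0, by rw [zero_pow two_ne_zero, sub_zero]; exact hπd⟩
        · exact hN.1 π hπ hπA hπd)
      set x0 := r % A with hx0
      have hx0d : x0.natDegree < A.natDegree := natDegree_mod_lt r (by omega)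
      obtain ⟨B, hB⟩ : A ∣ x0 ^ 2 - d := by
        have e1 : r = A * (r / A) + x0 := (EuclideanDomain.div_add_mod r A).symm
        obtain ⟨s, hs⟩ := hr
        refine ⟨-s - (r / A) * (r + x0), ?_⟩
        linear_combination (-1) * hs + (-(r + x0)) * e1
      by_cases hB0 : B = 0
      · refine ⟨x0, 1, 0, Or.inr one_ne_zero, ?_⟩
        rw [hB0, mul_zero] at hB
        linear_combination -hB
      obtain ⟨c, S, T, hc, hSm, hSs, hT, hBe⟩ := sq_dec _ B rfl hB0
      have hCc : IsUnit (C c : k[X]) := isUnit_C.2 (isUnit_iff_ne_zero.2 hc)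
      set A₁ := C c * S with hA₁
      have hA₁0 : A₁ ≠ 0 := mul_ne_zero (C_ne_zero.2 hc) hSm.ne_zero
      have hA₁s : Squarefree A₁ := by
        have hass : Associated S A₁ := associated_unit_mul_right _ _ hCc
        exact hass.squarefree_iff.1 hSs
      have e : A * A₁ * T ^ 2 = x0 ^ 2 - d := by
        rw [hB, hBe, hA₁]; ring
      have hdeg : A₁.natDegree < A.natDegree := by
        have h1 : (x0 ^ 2 - d).natDegree ≤ max (2 * x0.natDegree) d.natDegree := by
          refine (natDegree_sub_le _ _).trans (max_le_max ?_ le_rfl)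
          rw [natDegree_pow]
        have h2 : (x0 ^ 2 - d).natDegree = A.natDegree + A₁.natDegree + 2 * T.natDegree := by
          rw [← e, natDegree_mul (mul_ne_zero hA0 hA₁0) (pow_ne_zero _ hT), natDegree_mul hA0 hA₁0,
            natDegree_pow]
        rcases le_max_iff.1 h1 with h3 | h3 <;> omega
      have hN₁ : NoRes A₁ d := hN.step hA hd e
      have eT : A * (A₁ * T ^ 2) = x0 ^ 2 - d * 1 ^ 2 := by
        rw [one_pow, mul_one, ← e]; ring
      have eTc : A.comp h * (A₁.comp h * (T.comp h) ^ 2) =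
          (x0.comp h) ^ 2 - d.comp h * 1 ^ 2 := by
        have := congrArg (fun p : k[X] => p.comp h) eT
        simpa only [mul_comp, sub_comp, pow_comp, one_comp] using this
      have hS₁ : Sp (A₁.comp h) (d.comp h) :=
        (hS.trans (comp_ne hh hA0) eTc).sq_right (comp_ne hh hT)
      have h5 : Sp A₁ d := ih (A₁.natDegree + d.natDegree) (by omega) A₁ d rfl hA₁0 hd0 hA₁s hd
        hN₁ hS₁
      exact (h5.sq_left hT).trans (mul_ne_zero hA₁0 (pow_ne_zero _ hT))
        (by rw [mul_comm]; exact eT)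
    intro A d hn hA0 hd0 hA hd hN hS
    rcases Nat.eq_zero_or_pos A.natDegree with h1 | h1
    · exact base A d h1 hA0 hd0 hN hS
    rcases Nat.eq_zero_or_pos d.natDegree with h2 | h2
    · exact (base d A h2 hd0 hA0 hN.symm hS.symm).symm
    rcases le_total d.natDegree A.natDegree with h3 | h3
    · exact step A d hn h3 h1 hA0 hd0 hA hd hN hS
    · exact (step d A (by omega) h3 h2 hd0 hA0 hd hA hN.symm hS.symm).symm

/-- The residues descend. -/
theorem noRes_of_comp {h A d : k[X]} (hh : 0 < h.natDegree) (hA0 : A ≠ 0) (hd0 : d ≠ 0)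
    (hA : Squarefree A) (hd : Squarefree d) (hgA : Good A h) (hgd : Good d h)
    (hS : Sp (A.comp h) (d.comp h)) : NoRes A d := by
  have hAc := squarefree_comp hh hA0 hA fun π hπ hπA => (hgA π hπ hπA).1
  have hdc := squarefree_comp hh hd0 hd fun π hπ hπd => (hgd π hπ hπd).1
  refine ⟨?_, ?_, ?_⟩
  · intro π hπ hπA _
    obtain ⟨hi, hq⟩ := hgA π hπ hπA
    obtain ⟨r, hr⟩ := hS.res1 hAc hi (by
      obtain ⟨A', rfl⟩ := hπA
      exact ⟨A'.comp h, mul_comp _ _ _⟩)
    exact hq d r hr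
  · intro π hπ hπd _
    obtain ⟨hi, hq⟩ := hgd π hπ hπd
    obtain ⟨r, hr⟩ := hS.symm.res1 hdc hi (by
      obtain ⟨d', rfl⟩ := hπd
      exact ⟨d'.comp h, mul_comp _ _ _⟩)
    exact hq A r hr
  · rintro π A' d' hπ rfl rfl
    obtain ⟨hi, hq⟩ := hgA π hπ (dvd_mul_right _ _)
    rw [mul_comp] at hAc hS
    rw [mul_comp] at hdc hS
    obtain ⟨r, hr⟩ := hS.res3 hAc hdc hi
    obtain ⟨s, hs⟩ := hq (-(A' * d')) r (by
      rw [neg_comp, mul_comp]
      have e3 : -(A'.comp h * d'.comp h) - r ^ 2 = -(A'.comp h * d'.comp h + r ^ 2) := by ring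
      rw [e3, dvd_neg]
      exact hr)
    refine ⟨s, ?_⟩
    rw [← dvd_neg]
    have e3 : -(A' * d' + s ^ 2) = -(A' * d') - s ^ 2 := by ring
    rwa [e3]

theorem Sp.splits (h2 : (2 : k) ≠ 0) {A d : k[X]} {ε : k} (hd : d ≠ 0) (h : Sp (C ε * A) d) :
    Splits d ε A := by
  obtain ⟨x, y, z, h1, e⟩ := h
  by_cases hz : z = 0
  · subst hz
    have hy : y ≠ 0 := by
      rcases h1 with h1 | h1
      · exact absurd rfl h1
      · exact h1
    have hx : x ≠ 0 := by
      rintro rfl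
      have : d * y ^ 2 = 0 := by linear_combination e
      exact mul_ne_zero hd (pow_ne_zero _ hy) this
    have h2' : (2 : k[X]) ≠ 0 := by
      have : (2 : k[X]) = C 2 := by rw [map_ofNat]
      rw [this]
      exact C_ne_zero.2 h2
    refine ⟨x * (1 + C ε * A), y * (C ε * A - 1), 2 * x, mul_ne_zero h2' hx, ?_⟩
    linear_combination (C ε * A - 1) ^ 2 * e
  · exact ⟨x, y, z, hz, by linear_combination e⟩

/-- **The 2-descent data carry over, with the conics.** -/
theorem onlyTrivial_comp [CharZero k] {a b h : k[X]} (hO : OnlyTrivial a b) (hb : b ≠ 0)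
    (hd : a ^ 2 - 4 * b ≠ 0) (hh : 0 < h.natDegree) (hgb : Good b h)
    (hgd : Good (a ^ 2 - 4 * b) h) : OnlyTrivial (a.comp h) (b.comp h) := by
  intro A' hA' hs' hd' hN'
  obtain ⟨ε, hε, ⟨x, y, z, hz, e⟩, -⟩ := hN'
  obtain ⟨A, c, hA, hs, hAb, hc, rfl⟩ := Inert.divisor hgb.inert hb hh hA' hs' hd'
  have hdc : (a.comp h) ^ 2 - 4 * b.comp h = (a ^ 2 - 4 * b).comp h := by
    simp only [sub_comp, pow_comp, mul_comp]
    congr 2
    exact (ofNat_comp 4).symm
  rw [hdc] at e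
  obtain ⟨r, S, T, hr, hSm, hSs, hT, hde⟩ := sq_dec _ (a ^ 2 - 4 * b) rfl hd
  have hεc : ε * c ≠ 0 := mul_ne_zero hε hc
  have hCc : IsUnit (C (ε * c) : k[X]) := isUnit_C.2 (isUnit_iff_ne_zero.2 hεc)
  have hCr : IsUnit (C r : k[X]) := isUnit_C.2 (isUnit_iff_ne_zero.2 hr)
  have hA0 : C (ε * c) * A ≠ 0 := mul_ne_zero (C_ne_zero.2 hεc) hA.ne_zero
  have hd0 : C r * S ≠ 0 := mul_ne_zero (C_ne_zero.2 hr) hSm.ne_zero
  have hAs : Squarefree (C (ε * c) * A) :=
    (associated_unit_mul_right A _ hCc : Associated A _).squarefree_iff.1 hs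
  have hds : Squarefree (C r * S) :=
    (associated_unit_mul_right S _ hCr : Associated S _).squarefree_iff.1 hSs
  have hgA : Good (C (ε * c) * A) h := fun π hπ hπA =>
    hgb π hπ ((hCc.dvd_mul_left.1 hπA).trans hAb)
  have hgD : Good (C r * S) h := fun π hπ hπS =>
    hgd π hπ (hπS.trans ⟨T ^ 2, by rw [hde]⟩)
  have hSp : Sp ((C (ε * c) * A).comp h) ((C r * S).comp h) := by
    refine ⟨x, T.comp h * y, z, Or.inl hz, ?_⟩
    rw [hde] at e
    simp only [mul_comp, pow_comp, C_comp] at e ⊢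
    rw [C_mul]
    linear_combination e
  have hN := noRes_of_comp hh hA0 hd0 hAs hds hgA hgD hSp
  have h5 := descent hh _ _ _ rfl hA0 hd0 hAs hds hN hSp
  have h6 : Sp (C (ε * c) * A) (a ^ 2 - 4 * b) := by
    rw [hde]
    exact (h5.symm.sq_left hT).symm
  have h7 : Splits (a ^ 2 - 4 * b) (ε * c) A := h6.splits two_ne_zero hd
  have h8 : IsNormUpTo (a ^ 2 - 4 * b) A := by
    refine ⟨ε * c, hεc, h7, ?_⟩
    intro ρ δ m hρ hdd hδ
    exact h7.sq_mod hεc hA.ne_zero hρ hdd hδ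
  rcases hO A hA hs hAb h8 with h1 | ⟨e', q, he, hq⟩
  · left
    rw [h1, one_comp, mul_one] at hA' ⊢
    have h2 : c = 1 := by
      rw [Monic, leadingCoeff_C] at hA'
      exact hA'
    rw [h2, C_1]
  · right
    refine ⟨c * e', q.comp h, mul_ne_zero hc he, ?_⟩
    have h3 := congrArg (fun p : k[X] => p.comp h) hq
    simp only [mul_comp, C_comp, pow_comp] at h3
    rw [C_mul]
    linear_combination (C c) * h3

end

end Pool.Agent.T6.H14.EV
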