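import Pool.Agent.T6.H14.EV.Fad

/-!
# The criterion with points and base change of every degree
-/

set_option autoImplicit false
set_option linter.all false

open Polynomial IsDedekindDomain WeierstrassCurve WeierstrassCurve.Affine
open scoped Classical

namespace Pool.Agent.T6.H14.EV

open Pool.Agent.TH115.GD Pool.Agent.R939.EI

/-- For all the monic squarefree divisors `A` of `b` such that `IsNormUpTo (a² - 4 b) A`, there is a
point `P` over `K` of `y² = x (x² + a x + b)` with `x(P) = A` up to squares of `F`. -/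
def NormPoints (K F : Type) {k : Type} [Field k] [Field K] [Algebra k[X] K] [Field F]
    [Algebra K F] (a b : k[X]) : Prop :=
  ∀ A : k[X], A.Monic → Squarefree A → A ∣ b → IsNormUpTo (a ^ 2 - 4 * b) A →
    ∃ P : Pt (crvT (algebraMap k[X] K a) (algebraMap k[X] K b)) K,
      Represents K F A (dT (algebraMap k[X] K b) P)

section

variable {k k' K F : Type} [Field k] [Field k'] [Algebra k k'] [Field K] [Algebra k[X] K]
    [Field F] [Algebra k'[X] F] [IsFractionRing k'[X] F] [Algebra K F]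

theorem NormPoints.points {a b : k[X]} (h : NormPoints K F a b) : PointsForNorms K F a b :=
  fun A hA hs hd _ hN => h A hA hs hd hN

/-- the class of a divisor of `b(h)` comes from a divisor of `b` -/
theorem norm_descends [CharZero k] {a b h : k[X]} (hb : b ≠ 0)
    (hd : a ^ 2 - 4 * b ≠ 0) (hh : 0 < h.natDegree) (hgb : Good b h)
    (hgd : Good (a ^ 2 - 4 * b) h) {A' : k[X]} (hA' : A'.Monic) (hs' : Squarefree A')
    (hd' : A' ∣ b.comp h) (hN' : IsNormUpTo ((a.comp h) ^ 2 - 4 * b.comp h) A') :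
    ∃ (A : k[X]) (c : k), A.Monic ∧ Squarefree A ∧ A ∣ b ∧ c ≠ 0 ∧ A' = C c * A.comp h ∧
      IsNormUpTo (a ^ 2 - 4 * b) A := by
  obtain ⟨ε, hε, ⟨x, y, z, hz, e⟩, -⟩ := hN'
  obtain ⟨A, c, hA, hs, hAb, hc, rfl⟩ := Inert.divisor hgb.inert hb hh hA' hs' hd'
  refine ⟨A, c, hA, hs, hAb, hc, rfl, ?_⟩
  have hdc : (a.comp h) ^ 2 - 4 * b.comp h = (a ^ 2 - 4 * b).comp h := by
    simp only [sub_comp, pow_comp, mul_comp]
    congr 2
    exact (ofNat_comp 4).symm
  rw [hdc] at e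
  obtain ⟨r, S, T, hr, hSm, hSs, hT, hde⟩ := sq_dec _ (a ^ 2 - 4 * b) rfl hd
  have hεc : ε * c ≠ 0 := mul_ne_zero hε hc
  have hCc : IsUnit (C (ε * c) : k[X]) := isUnit_C.2 (isUnit_iff_ne_zero.2 hεc)
  have hCr : IsUnit (C r : k[X]) := isUnit_C.2 (isUnit_iff_ne_zero.2 hr)
  have hA0 : C (ε * c) * A ≠ 0 := mul_ne_zero (C_ne_zero.2 hεc) hA.ne_zero
  have hd0 : C r * S ≠ 0 := mul_ne_zero (C_ne_zero.2 hr) hSm.ne_zero
  have hAs : Squarefree (C (ε * c) * A) :=
    (associated_unit_mul_right A _ hCc : Associated A _).squarefree_iff.1 hs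
  have hds : Squarefree (C r * S) :=
    (associated_unit_mul_right S _ hCr : Associated S _).squarefree_iff.1 hSs
  have hgA : Good (C (ε * c) * A) h := fun π hπ hπA =>
    hgb π hπ ((hCc.dvd_mul_left.1 hπA).trans hAb)
  have hgD : Good (C r * S) h := fun π hπ hπS =>
    hgd π hπ (hπS.trans ⟨T ^ 2, by rw [hde]⟩)
  have hSp : Sp ((C (ε * c) * A).comp h) ((C r * S).comp h) := by
    refine ⟨x, T.comp h * y, z, Or.inl hz, ?_⟩
    rw [hde] at e
    simp only [mul_comp, pow_comp, C_comp] at e ⊢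
    rw [C_mul]
    linear_combination e
  have hN := noRes_of_comp hh hA0 hd0 hAs hds hgA hgD hSp
  have h5 := descent hh _ _ _ rfl hA0 hd0 hAs hds hN hSp
  have h6 : Sp (C (ε * c) * A) (a ^ 2 - 4 * b) := by
    rw [hde]
    exact (h5.symm.sq_left hT).symm
  have h7 : Splits (a ^ 2 - 4 * b) (ε * c) A := h6.splits two_ne_zero hd
  refine ⟨ε * c, hεc, h7, ?_⟩
  intro ρ δ m hρ hdd hδ
  exact h7.sq_mod hεc hA.ne_zero hρ hdd hδ

/-- **The points carry over.** -/
theorem normPoints_comp [CharZero k] (hT : IsTower k k' K F) {a b h : k[X]}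
    (hP : NormPoints K F a b) (hb : b ≠ 0) (hd : a ^ 2 - 4 * b ≠ 0) (hh : 0 < h.natDegree)
    (hgb : Good b h) (hgd : Good (a ^ 2 - 4 * b) h) : NormPoints K F (a.comp h) (b.comp h) := by
  haveI := hT.sep
  haveI := hT.fracK
  haveI : IsSepClosed k' := IsSepClosure.sep_closed k
  obtain ⟨σ, τ, hσ, hτ⟩ := exists_subst hT (h := h) hh
  intro A' hA' hs' hd' hN'
  obtain ⟨A, c, hA, hs, hAb, hc, rfl, hN⟩ := norm_descends hb hd hh hgb hgd hA' hs' hd' hN'
  obtain ⟨P, g, hg, hP⟩ := hP A hA hs hAb hN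
  obtain ⟨P', hP'⟩ : ∃ P' : Pt (crvT (algebraMap k[X] K (a.comp h)) (algebraMap k[X] K (b.comp h))) K,
      dT (algebraMap k[X] K (b.comp h)) P' = σ (dT (algebraMap k[X] K b) P) := by
    rw [← hσ, ← hσ]
    exact pull_point σ P
  have h2' : (2 : k') ≠ 0 := by
    rw [← map_ofNat (algebraMap k k') 2]
    exact (_root_.map_ne_zero _).2 two_ne_zero
  haveI : NeZero ((2 : ℕ) : k') := ⟨by exact_mod_cast h2'⟩
  obtain ⟨s, hs⟩ := IsSepClosed.exists_pow_nat_eq (algebraMap k k' c) 2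
  have hs0 : s ≠ 0 := by
    rintro rfl
    rw [zero_pow two_ne_zero] at hs
    exact (_root_.map_ne_zero _).2 hc hs.symm
  have hsF : algebraMap k'[X] F (C s) ≠ 0 := by simpa using hs0
  have hsq : algebraMap k'[X] F (C s) ^ 2 = algebraMap K F (algebraMap k[X] K (C c)) := by
    rw [← map_pow, ← C_pow, hs, hT.map, map_C]
  refine ⟨P', algebraMap k'[X] F (C s) * τ g, mul_ne_zero hsF ((_root_.map_ne_zero _).2 hg), ?_⟩
  have h6 := congrArg τ hP
  rw [hτ, hσ, map_mul, map_pow, hτ] at h6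
  rw [hP', mul_pow, hsq, mul_assoc, ← h6, map_mul, map_mul]

theorem comp_disc {a b h : k[X]} :
    (a.comp h) ^ 2 - 4 * b.comp h = (a ^ 2 - 4 * b).comp h := by
  simp only [sub_comp, pow_comp, mul_comp]
  congr 2
  exact (ofNat_comp 4).symm

theorem comp_neg_two {a h : k[X]} : -2 * a.comp h = (-2 * a).comp h := by
  simp only [mul_comp, neg_comp]
  congr 2
  exact (ofNat_comp 2).symm

theorem good_disc [CharZero k] {a b h : k[X]} (hgb : Good b h) :
    Good ((-2 * a) ^ 2 - 4 * (a ^ 2 - 4 * b)) h := by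
  have e : (-2 * a) ^ 2 - 4 * (a ^ 2 - 4 * b) = 16 * b := by ring
  have h16 : (16 : k[X]) = C 16 := by rw [map_ofNat]
  have h160 : (16 : k) ≠ 0 := by norm_num
  rw [e, h16]
  intro π hπ hdv
  exact hgb π hπ (((isUnit_C.2 (isUnit_iff_ne_zero.2 h160)).dvd_mul_left).1 hdv)

theorem disc_disc_ne [CharZero k] {a b : k[X]} (hb : b ≠ 0) :
    (-2 * a) ^ 2 - 4 * (a ^ 2 - 4 * b) ≠ 0 := by
  have e : (-2 * a) ^ 2 - 4 * (a ^ 2 - 4 * b) = 16 * b := by ring
  have h16 : (16 : k[X]) = C 16 := by rw [map_ofNat]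
  have h160 : (16 : k) ≠ 0 := by norm_num
  rw [e, h16]
  exact mul_ne_zero (C_ne_zero.2 h160) hb

/-- **Stability, for one `h`.** -/
theorem main_good [CharZero k] (hT : IsTower k k' K F) {a b h : k[X]} (hNb : NotNorm b)
    (hNd : NotNorm (a ^ 2 - 4 * b)) (hb : b ≠ 0) (hd : a ^ 2 - 4 * b ≠ 0)
    (hh : 0 < h.natDegree) (hg : Good (b * (a ^ 2 - 4 * b)) h) :
    NotNorm (b.comp h) ∧ NotNorm ((a.comp h) ^ 2 - 4 * b.comp h) ∧
    (NormPoints K F a b ∧ NormPoints K F (-2 * a) (a ^ 2 - 4 * b) →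
      NormPoints K F (a.comp h) (b.comp h) ∧
      NormPoints K F (-2 * a.comp h) ((a.comp h) ^ 2 - 4 * b.comp h) ∧
      TateAtTwo (F := F) k' (crvT (algebraMap k[X] K (a.comp h)) (algebraMap k[X] K (b.comp h)))) ∧
    (OnlyTrivial a b ∧ OnlyTrivial (-2 * a) (a ^ 2 - 4 * b) →
      OnlyTrivial (a.comp h) (b.comp h) ∧
      OnlyTrivial (-2 * a.comp h) ((a.comp h) ^ 2 - 4 * b.comp h) ∧
      ∀ D : k[X], InertIn (a.comp h) (b.comp h) D → ∀ c : k, c ≠ 0 →
        TateAtTwo (F := F) k' (crvT (algebraMap k[X] K (C c * (a.comp h * D)))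
          (algebraMap k[X] K (C (c ^ 2) * (b.comp h * D ^ 2))))) := by
  have hgb : Good b h := hg.of_dvd (dvd_mul_right _ _)
  have hgd : Good (a ^ 2 - 4 * b) h := hg.of_dvd (dvd_mul_left _ _)
  have s1 : NotNorm (b.comp h) := notNorm_comp' hb hh hgb hNb
  have s2 : NotNorm ((a.comp h) ^ 2 - 4 * b.comp h) := by
    rw [comp_disc]
    exact notNorm_comp' hd hh hgd hNd
  refine ⟨s1, s2, ?_, ?_⟩
  · rintro ⟨hA, hB⟩
    have s3 : NormPoints K F (a.comp h) (b.comp h) := normPoints_comp hT hA hb hd hh hgb hgd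
    have s4 : NormPoints K F (-2 * a.comp h) ((a.comp h) ^ 2 - 4 * b.comp h) := by
      rw [comp_disc, comp_neg_two]
      exact normPoints_comp hT hB hd (disc_disc_ne hb) hh hgd (good_disc hgb)
    refine ⟨s3, s4, ?_⟩
    exact criterion hT two_ne_zero (comp_ne hh hb) (by rw [comp_disc]; exact comp_ne hh hd)
      (fun π hπ _ => hπ.separable) s1 s2 s3.points s4.points
  · rintro ⟨hA, hB⟩
    have s3 : OnlyTrivial (a.comp h) (b.comp h) := onlyTrivial_comp hA hb hd hh hgb hgd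
    have s4 : OnlyTrivial (-2 * a.comp h) ((a.comp h) ^ 2 - 4 * b.comp h) := by
      rw [comp_disc, comp_neg_two]
      exact onlyTrivial_comp hB hd (disc_disc_ne hb) hh hgd (good_disc hgb)
    refine ⟨s3, s4, ?_⟩
    intro D hD c hc
    have h1 := twist_main hT two_ne_zero (comp_ne hh hb) (by rw [comp_disc]; exact comp_ne hh hd)
      s1 s2 s3 s4 hD hc (h := X) (by rw [natDegree_X]; exact odd_one) (by
        intro π hπ _
        rw [comp_X]
        exact ⟨hπ, hπ.separable⟩)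
    rwa [comp_X, comp_X] at h1

end

end Pool.Agent.T6.H14.EV
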