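import Pool.Agent.R939.EI.Tw1
import Pool.Agent.R939.EI.Odd4

/-!
# Base changes which create no square roots in the residue fields

Let `h` be a polynomial such that, for the primes `π` of `b (a² - 4 b)`, `π(h)` is irreducible and the
residue field of `π(h)` contains no square root of an element of the residue field of `π` which is not
a square there.  Then the hypotheses on the pair `(a, b)` which are used in the descent carry over to
the pair `(a(h), b(h))`, for every degree of `h`.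
-/

set_option autoImplicit false
set_option linter.all false

open Polynomial
open scoped Classical

namespace Pool.Agent.T6.H14.EV

open Pool.Agent.TH115.GD Pool.Agent.R939.EI

/-- An element `g` of the residue field `k[X]/(π)` which becomes a square in the residue field
`k[X]/(π(h))` is a square. -/
def NoQ {k : Type} [Field k] (π h : k[X]) : Prop :=
  ∀ g r : k[X], π.comp h ∣ g.comp h - r ^ 2 → ∃ s : k[X], π ∣ g - s ^ 2

/-- The primes of `f` remain primes, and their residue fields get no new square roots of elements. -/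
def Good {k : Type} [Field k] (f h : k[X]) : Prop :=
  ∀ π : k[X], Irreducible π → π ∣ f → Irreducible (π.comp h) ∧ NoQ π h

/-- `1` and `b`, up to squares and constants, are the only monic squarefree divisors `A` of `b` such
that, for some constant `ε ≠ 0`, `ε A` is a square modulo all the irreducible polynomials which divide
`a² - 4 b` to an odd power. -/
def Rigid {k : Type} [Field k] (a b : k[X]) : Prop :=
  ∀ A : k[X], A.Monic → Squarefree A → A ∣ b →
    (∃ ε : k, ε ≠ 0 ∧ ∀ (ρ δ : k[X]) (m : ℕ), Irreducible ρ → a ^ 2 - 4 * b = ρ ^ (2 * m + 1) * δ →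
      ¬ ρ ∣ δ → ∃ r : k[X], ρ ∣ C ε * A - r ^ 2) →
    A = 1 ∨ ∃ (e : k) (q : k[X]), e ≠ 0 ∧ A * b = C e * q ^ 2

section

variable {k : Type} [Field k]

theorem Rigid.onlyTrivial {a b : k[X]} (h : Rigid a b) : OnlyTrivial a b := by
  intro A hA hs hd hN
  obtain ⟨ε, hε, -, h2⟩ := hN
  exact h A hA hs hd ⟨ε, hε, h2⟩

theorem Good.of_dvd {f g h : k[X]} (hg : Good f h) (hd : g ∣ f) : Good g h :=
  fun π hπ hdv => hg π hπ (hdv.trans hd)

theorem Good.inert [CharZero k] {f h : k[X]} (hg : Good f h) : Inert f h :=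
  fun π hπ hdv => ⟨(hg π hπ hdv).1, (hg π hπ hdv).1.separable⟩

/-- divisibility descends -/
theorem dvd_of_comp {f g h : k[X]} (hh : 0 < h.natDegree) (hf : f ≠ 0)
    (hd : f.comp h ∣ g.comp h) : f ∣ g := by
  by_cases hf0 : f.natDegree = 0
  · rw [eq_C_of_natDegree_eq_zero hf0]
    have h1 : f.coeff 0 ≠ 0 := by
      intro h0
      rw [eq_C_of_natDegree_eq_zero hf0, h0, C_0] at hf
      exact hf rfl
    exact (isUnit_C.2 (isUnit_iff_ne_zero.2 h1)).dvd
  have h1 := natDegree_mod_lt g hf0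
  have h2 : g = f * (g / f) + g % f := (EuclideanDomain.div_add_mod g f).symm
  have h3 : f.comp h ∣ (g % f).comp h := by
    have e : (g % f).comp h = g.comp h - f.comp h * (g / f).comp h := by
      have h4 := congrArg (fun p : k[X] => p.comp h) h2
      simp only [add_comp, mul_comp] at h4
      rw [h4]
      ring
    rw [e]
    exact dvd_sub hd (dvd_mul_right _ _)
  have h4 : g % f = 0 := by
    by_contra hne
    have h5 := natDegree_le_of_dvd h3 (comp_ne hh hne)
    rw [natDegree_comp, natDegree_comp] at h5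
    have h6 := Nat.le_of_mul_le_mul_right h5 hh
    omega
  rw [h2, h4, add_zero]
  exact dvd_mul_right _ _

theorem squarefree_comp {S h : k[X]} (hh : 0 < h.natDegree) (hS0 : S ≠ 0) (hS : Squarefree S)
    (hi : ∀ π : k[X], Irreducible π → π ∣ S → Irreducible (π.comp h)) :
    Squarefree (S.comp h) := by
  rw [squarefree_iff_irreducible_sq_not_dvd_of_ne_zero (comp_ne hh hS0)]
  intro q hq hqq
  obtain ⟨π, hπ, hπS, hqπ⟩ := Inert.exists_prime hS0 hq ((dvd_mul_right q q).trans hqq)
  have hass : Associated q (π.comp h) := hq.associated_of_dvd (hi π hπ hπS) hqπ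
  obtain ⟨S', rfl⟩ := hπS
  have h1 : π.comp h * π.comp h ∣ π.comp h * S'.comp h := by
    have h2 : π.comp h * S'.comp h = (π * S').comp h := (mul_comp _ _ _).symm
    rw [h2]
    exact (hass.mul_mul hass).symm.dvd.trans hqq
  have h2 : π.comp h ∣ S'.comp h :=
    (mul_dvd_mul_iff_left (comp_ne hh hπ.ne_zero)).1 h1
  obtain ⟨S'', rfl⟩ := dvd_of_comp hh hπ.ne_zero h2
  exact hπ.not_isUnit (hS π ⟨S'', by ring⟩)

/-- **Norms from constant quadratic extensions, every degree.** -/
theorem notNorm_comp' {p h : k[X]} (hp : p ≠ 0) (hh : 0 < h.natDegree) (hg : Good p h)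
    (hN : NotNorm p) : NotNorm (p.comp h) := by
  obtain ⟨r, S, T, hr, hS, hS', hT, hpe⟩ := sq_dec _ p rfl hp
  have hSp : S ∣ p := ⟨C r * T ^ 2, by rw [hpe]; ring⟩
  have hS1 : ¬ IsUnit S := by
    intro hu
    have : S = 1 := hS.eq_one_of_isUnit hu
    obtain ⟨h3, -⟩ := hN r 1 T 0 (by rw [hpe, this]; ring)
    exact h3 rfl
  have hsq : Squarefree (S.comp h) :=
    squarefree_comp hh hS.ne_zero hS' fun π hπ hd => (hg π hπ (hd.trans hSp)).1
  have hSc1 : ¬ IsUnit (S.comp h) := by
    intro hu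
    have h6 := natDegree_eq_zero_of_isUnit hu
    rw [natDegree_comp] at h6
    rcases Nat.mul_eq_zero.1 h6 with h8 | h8
    · apply hS1
      rw [eq_C_of_natDegree_eq_zero h8]
      refine isUnit_C.2 (isUnit_iff_ne_zero.2 ?_)
      intro h0
      have h9 := hS.ne_zero
      rw [eq_C_of_natDegree_eq_zero h8, h0, C_0] at h9
      exact h9 rfl
    · omega
  have hTc : T.comp h ≠ 0 := comp_ne hh hT
  have hno : ∀ (v : k) (x : k[X]), v ≠ 0 → C v * S.comp h * (T.comp h) ^ 2 ≠ x ^ 2 := by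
    intro v x hv e
    apply hSc1
    refine unit_of_sq hsq (comp_ne hh hS.ne_zero) (inv_ne_zero hv) _ x (T.comp h) hTc rfl ?_
    have : C v⁻¹ * C v = (1 : k[X]) := by rw [← C_mul, inv_mul_cancel₀ hv, C_1]
    rw [← e]
    linear_combination (-(S.comp h * (T.comp h) ^ 2)) * this
  have hpc : p.comp h = C r * S.comp h * (T.comp h) ^ 2 := by
    rw [hpe]
    simp only [mul_comp, C_comp, pow_comp]
  intro u D U V e
  have hu : u ≠ 0 := by
    rintro rfl
    rw [C_0, zero_mul] at e
    exact comp_ne hh hp e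
  have hv : u⁻¹ * r ≠ 0 := mul_ne_zero (inv_ne_zero hu) hr
  have key : C (u⁻¹ * r) * S.comp h * (T.comp h) ^ 2 = U ^ 2 - C D * V ^ 2 := by
    have : C u⁻¹ * C u = (1 : k[X]) := by rw [← C_mul, inv_mul_cancel₀ hu, C_1]
    rw [hpc] at e
    rw [C_mul]
    linear_combination (C u⁻¹) * e + (U ^ 2 - C D * V ^ 2) * this
  constructor
  · rintro rfl
    exact hno _ U hv (by rw [key]; ring)
  · by_contra hD
    have hV : V ≠ 0 := by
      rintro rfl
      exact hno _ U hv (by rw [key]; ring)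
    have hD0 : D ≠ 0 := by
      rintro rfl
      exact hD ⟨0, by ring⟩
    have hsp : Splits (C (u⁻¹ * r) * S.comp h) D 1 :=
      ⟨U, T.comp h, V, hV, by rw [mul_one]; linear_combination key⟩
    have hprimes : ∀ π : k[X], Irreducible π → π ∣ S →
        ∃ (c : k) (A B : k[X]), π = C c * (A ^ 2 - C D * B ^ 2) := by
      rintro π hπ ⟨S', hS''⟩
      obtain ⟨hπi, hπn⟩ := hg π hπ ((Dvd.intro S' hS''.symm).trans hSp)
      have hnd : ¬ π.comp h ∣ C (u⁻¹ * r) * S'.comp h := by
        rw [(isUnit_C.2 (isUnit_iff_ne_zero.2 hv)).dvd_mul_left]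
        intro h7
        obtain ⟨S3, rfl⟩ := dvd_of_comp hh hπ.ne_zero h7
        have h5 : π * π ∣ S := ⟨S3, by rw [hS'']; ring⟩
        exact hπ.not_isUnit (hS' π h5)
      obtain ⟨g, hg'⟩ := hsp.sq_mod hD0 one_ne_zero hπi (m := 0) (δ := C (u⁻¹ * r) * S'.comp h)
        (by rw [hS'', mul_comp]; ring) hnd
      rw [mul_one] at hg'
      obtain ⟨s, hs⟩ := hπn (C D) g (by rwa [C_comp])
      exact norm_of_sq_mod hπ hD hs
    obtain ⟨c, A, B, hc⟩ := norm_of_primes hS.ne_zero hprimes
    obtain ⟨-, h5⟩ := hN (r * c) D (A * T) (B * T) (by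
      rw [hpe, hc, C_mul]
      ring)
    exact hD h5

/-- **The 2-descent data carry over.** -/
theorem Rigid.comp [CharZero k] {a b h : k[X]} (hR : Rigid a b) (hb : b ≠ 0)
    (hd : a ^ 2 - 4 * b ≠ 0) (hh : 0 < h.natDegree) (hgb : Good b h)
    (hgd : Good (a ^ 2 - 4 * b) h) : Rigid (a.comp h) (b.comp h) := by
  intro A' hA' hs' hd' hε'
  obtain ⟨ε, hε, hres⟩ := hε'
  obtain ⟨A, c, hA, hs, hAb, hc, rfl⟩ := Inert.divisor hgb.inert hb hh hA' hs' hd'
  have hdc : (a.comp h) ^ 2 - 4 * b.comp h = (a ^ 2 - 4 * b).comp h := by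
    simp only [sub_comp, pow_comp, mul_comp]
    congr 2
    exact (ofNat_comp 4).symm
  have h1 := hR A hA hs hAb ⟨ε * c, mul_ne_zero hε hc, by
    intro ρ δ m hρ hdd hδ
    have hρd : ρ ∣ a ^ 2 - 4 * b := by
      rw [hdd, pow_succ]
      exact (dvd_mul_left ρ _).mul_right _
    obtain ⟨hρi, hρn⟩ := hgd ρ hρ hρd
    obtain ⟨r, hr⟩ := hres (ρ.comp h) (δ.comp h) m hρi (by
      rw [hdc, hdd, mul_comp, pow_comp]) (fun h7 => hδ (dvd_of_comp hh hρ.ne_zero h7))
    refine hρn (C (ε * c) * A) r ?_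
    rw [mul_comp, C_comp, C_mul]
    rwa [← mul_assoc] at hr⟩
  rcases h1 with h1 | ⟨e, q, he, hq⟩
  · left
    rw [h1, one_comp, mul_one] at hA' ⊢
    have h2 : c = 1 := by
      rw [Monic, leadingCoeff_C] at hA'
      exact hA'
    rw [h2, C_1]
  · right
    refine ⟨c * e, q.comp h, mul_ne_zero hc he, ?_⟩
    have h3 := congrArg (fun p : k[X] => p.comp h) hq
    simp only [mul_comp, C_comp, pow_comp] at h3
    rw [C_mul]
    linear_combination (C c) * h3

/-- **Stability of the hypotheses.** -/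
theorem stable [CharZero k] {a b h : k[X]} (hb : b ≠ 0) (hd : a ^ 2 - 4 * b ≠ 0)
    (hNb : NotNorm b) (hNd : NotNorm (a ^ 2 - 4 * b)) (hR : Rigid a b)
    (hR' : Rigid (-2 * a) (a ^ 2 - 4 * b)) (hh : 0 < h.natDegree)
    (hg : Good (b * (a ^ 2 - 4 * b)) h) :
    NotNorm (b.comp h) ∧ NotNorm ((a.comp h) ^ 2 - 4 * b.comp h) ∧
      Rigid (a.comp h) (b.comp h) ∧ Rigid (-2 * a.comp h) ((a.comp h) ^ 2 - 4 * b.comp h) := by
  have hdc : (a.comp h) ^ 2 - 4 * b.comp h = (a ^ 2 - 4 * b).comp h := by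
    simp only [sub_comp, pow_comp, mul_comp]
    congr 2
    exact (ofNat_comp 4).symm
  have hac : -2 * a.comp h = (-2 * a).comp h := by
    simp only [mul_comp, neg_comp]
    congr 2
    exact (ofNat_comp 2).symm
  have hgb : Good b h := hg.of_dvd (dvd_mul_right _ _)
  have hgd : Good (a ^ 2 - 4 * b) h := hg.of_dvd (dvd_mul_left _ _)
  refine ⟨notNorm_comp' hb hh hgb hNb, ?_, hR.comp hb hd hh hgb hgd, ?_⟩
  · rw [hdc]
    exact notNorm_comp' hd hh hgd hNd
  · rw [hdc, hac]
    have e : (-2 * a) ^ 2 - 4 * (a ^ 2 - 4 * b) = 16 * b := by ring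
    have h16 : (16 : k[X]) = C 16 := by rw [map_ofNat]
    have h160 : (16 : k) ≠ 0 := by norm_num
    refine hR'.comp hd ?_ hh hgd ?_
    · rw [e, h16]
      exact mul_ne_zero (C_ne_zero.2 h160) hb
    · rw [e, h16]
      intro π hπ hdv
      exact hgb π hπ (((isUnit_C.2 (isUnit_iff_ne_zero.2 h160)).dvd_mul_left).1 hdv)

end

section main

variable {k k' K F : Type} [Field k] [Field k'] [Algebra k k'] [Field K] [Algebra k[X] K]
    [Field F] [Algebra k'[X] F] [IsFractionRing k'[X] F] [Algebra K F]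

/-- **All the inert twists of a base change of every degree.** -/
theorem twist_comp [CharZero k] (hT : IsTower k k' K F) {a b h : k[X]} (hb : b ≠ 0)
    (hd : a ^ 2 - 4 * b ≠ 0) (hNb : NotNorm b) (hNd : NotNorm (a ^ 2 - 4 * b)) (hR : Rigid a b)
    (hR' : Rigid (-2 * a) (a ^ 2 - 4 * b)) (hh : 0 < h.natDegree)
    (hg : Good (b * (a ^ 2 - 4 * b)) h) {D : k[X]} (hD : InertIn (a.comp h) (b.comp h) D) {c : k}
    (hc : c ≠ 0) :
    TateAtTwo (F := F) k' (crvT (algebraMap k[X] K (C c * (a.comp h * D)))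
      (algebraMap k[X] K (C (c ^ 2) * (b.comp h * D ^ 2)))) := by
  obtain ⟨s1, s2, s3, s4⟩ := stable hb hd hNb hNd hR hR' hh hg
  have hdc : (a.comp h) ^ 2 - 4 * b.comp h = (a ^ 2 - 4 * b).comp h := by
    simp only [sub_comp, pow_comp, mul_comp]
    congr 2
    exact (ofNat_comp 4).symm
  have h1 := twist_main hT two_ne_zero (comp_ne hh hb) (by rw [hdc]; exact comp_ne hh hd) s1 s2
    s3.onlyTrivial s4.onlyTrivial hD hc (h := X) (by rw [natDegree_X]; exact odd_one) (by
      intro π hπ _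
      rw [comp_X]
      exact ⟨hπ, hπ.separable⟩)
  rwa [comp_X, comp_X] at h1

end main

end Pool.Agent.T6.H14.EV
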